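import Pool.Agent.Helper13.PS.Defs

/-!
# PS: the step on products over present links, telescoping
-/

set_option autoImplicit false

namespace Pool.Agent.Helper13.PS

open MvPolynomial
open Pool.Agent.Helper51.PE (Tok Alg has cut wt key tle pr mon phi phiL V cc0 yt xt leb gt StBot StUp)

private theorem phi_one_D2 (b : ℕ → ℕ) (ε : ℝ) (e : ℕ) : phi b ε e 1 = 0 := by
  have h1 : (1 : Alg) = basisMonomials Tok ℝ 0 := by
    rw [coe_basisMonomials]
    rfl
  rw [phi, h1, Module.Basis.constr_basis]
  simp [phiL]

private theorem phi_C_D2 (b : ℕ → ℕ) (ε : ℝ) (e : ℕ) (r : ℝ) (h : Alg) :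
    phi b ε e (C r * h) = C r * phi b ε e h := by
  rw [← smul_eq_C_mul, ← smul_eq_C_mul, map_smul]

theorem phi_out (h2 : StBot) (b : ℕ → ℕ) (e : ℕ) (g h : Alg)
    (hg : ∀ c ∈ g.vars, ¬ has b e c) : phi b 0 e (g * h) = g * phi b 0 e h := by
  have hmem : g ∈ supported ℝ {c : Tok | ¬ has b e c} := by
    rw [mem_supported]
    intro c hc
    exact hg c hc
  rw [supported] at hmem
  clear hg
  have key : ∀ h : Alg, phi b 0 e (g * h) = g * phi b 0 e h := by
    clear h
    induction hmem using Algebra.adjoin_induction with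
    | mem x hx =>
      obtain ⟨c, hc, rfl⟩ := hx
      intro h
      rw [h2 b 0 e c h hc]
      simp
    | algebraMap r =>
      intro h
      exact phi_C_D2 b 0 e r h
    | add x y _ _ hx hy =>
      intro h
      rw [add_mul, map_add, hx, hy, add_mul]
    | mul x y _ _ hx hy =>
      intro h
      rw [mul_assoc, hx, hy, mul_assoc]
  exact key h

theorem vars_prodR : ∀ (L : List (ℕ × ℝ)) (a : Tok), a ∈ (prodR L).vars →
    ∃ q ∈ L, a = (q.1, 0) := by
  intro L
  induction L with
  | nil =>
    intro a ha
    rw [prodR, vars_one] at ha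
    exact absurd ha (Finset.notMem_empty a)
  | cons p L ih =>
    obtain ⟨β, t⟩ := p
    intro a ha
    rw [prodR] at ha
    have h1 := vars_mul _ _ ha
    rcases Finset.mem_union.1 h1 with h3 | h3
    · have h4 := vars_add_subset _ _ h3
      rcases Finset.mem_union.1 h4 with h5 | h5
      · rw [vars_one] at h5
        exact absurd h5 (Finset.notMem_empty a)
      · have h6 := vars_mul _ _ h5
        rw [vars_C, Finset.empty_union, vars_X, Finset.mem_singleton] at h6
        exact ⟨(β, t), List.mem_cons_self, h6⟩
    · obtain ⟨q, hq, h6⟩ := ih a h3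
      exact ⟨q, List.mem_cons_of_mem _ hq, h6⟩

private theorem rename_prodR (b : ℕ → ℕ) (e : ℕ) (L : List (ℕ × ℝ)) :
    rename (cut b e) (prodR L) = prodR (L.map (cutR b e)) := by
  induction L with
  | nil => simp [prodR]
  | cons p L ih =>
    obtain ⟨β, t⟩ := p
    rw [prodR, map_mul, ih, map_add, map_mul, map_one, rename_C, rename_X, List.map_cons, cutR, prodR]
    have h1 : cut b e (β, 0) = (min β (b e), 0) := by
      unfold cut has
      by_cases h : b e < β
      · rw [if_pos ⟨Nat.zero_le e, h⟩, min_eq_right h.le]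
      · rw [if_neg (fun hh => h hh.2), min_eq_left (not_lt.1 h)]
    rw [h1]

theorem SS_step (h2 : StBot) (h3 : StUp) (b : ℕ → ℕ) (e : ℕ) (L : List (ℕ × ℝ))
    (hL : L.Pairwise (fun p q => q.1 ≤ p.1)) :
    phi b 0 e (prodR L) = SSR b e L ∧
    phi b 0 e (prodR L * (1 + X (b e + 1, e))) = prodR L + (1 + X (b e, 0)) * SSR b e L := by
  have hA : has b e (b e + 1, e) := ⟨le_refl e, Nat.lt_succ_self _⟩
  have hcutA : cut b e (b e + 1, e) = (b e, 0) := by
    unfold cut; rw [if_pos hA]
  induction L with
  | nil =>
    refine ⟨by rw [prodR, SSR, phi_one_D2], ?_⟩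
    have h4 := h3 b 0 e (b e + 1, e) 1 (by intro a ha; rw [vars_one] at ha; exact absurd ha (Finset.notMem_empty a))
    rw [mul_one, phi_one_D2, mul_zero, zero_add, map_one, mul_one] at h4
    rw [prodR, SSR, one_mul, map_add, phi_one_D2, h4, wt, if_pos hA]
    simp
  | cons p L ih =>
    obtain ⟨β, t⟩ := p
    rw [List.pairwise_cons] at hL
    obtain ⟨ih1, ih2⟩ := ih hL.2
    by_cases hβ : b e < β
    · have hB : has b e (β, 0) := ⟨Nat.zero_le e, hβ⟩
      have hwt : wt b 0 e (β, 0) = 1 := by rw [wt, if_pos hB]
      have hkβ : key b e (β, 0) = β + 1 := by rw [key, if_pos hB]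
      have hv : ∀ a ∈ (prodR L).vars, tle b e a (β, 0) := by
        intro a ha
        obtain ⟨q, hq, rfl⟩ := vars_prodR L a ha
        have hq1 : q.1 ≤ β := hL.1 q hq
        unfold tle
        rw [hkβ]
        by_cases hb : has b e (q.1, 0)
        · have hk : key b e (q.1, 0) = q.1 + 1 := by rw [key, if_pos hb]
          rw [hk]
          rcases lt_or_eq_of_le hq1 with h5 | h5
          · left; omega
          · right
            exact ⟨by omega, Or.inr ⟨h5, le_refl 0⟩⟩
        · have hk : key b e (q.1, 0) = 0 := by rw [key, if_neg hb]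
          rw [hk]
          left; omega
      have hv2 : ∀ a ∈ (prodR L * (1 + X (b e + 1, e))).vars, tle b e a (β, 0) := by
        intro a ha
        rcases Finset.mem_union.1 (vars_mul _ _ ha) with h5 | h5
        · exact hv a h5
        · rcases Finset.mem_union.1 (vars_add_subset _ _ h5) with h6 | h6
          · rw [vars_one] at h6
            exact absurd h6 (Finset.notMem_empty a)
          · rw [vars_X, Finset.mem_singleton] at h6
            subst h6
            unfold tle
            rw [hkβ]
            have hk : key b e (b e + 1, e) = b e + 1 + 1 := by rw [key, if_pos hA]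
            rw [hk]
            rcases lt_or_eq_of_le (Nat.succ_le_of_lt hβ) with h7 | h7
            · left; omega
            · right
              exact ⟨by omega, Or.inr ⟨h7, Nat.zero_le e⟩⟩
      have e1 := h3 b 0 e (β, 0) (prodR L) hv
      have e2 := h3 b 0 e (β, 0) (prodR L * (1 + X (b e + 1, e))) hv2
      rw [hwt, C_1, one_mul, rename_prodR, ih1] at e1
      have hren : rename (cut b e) (prodR L * (1 + X (b e + 1, e))) =
          prodR (L.map (cutR b e)) * (1 + X (b e, 0)) := by
        rw [map_mul, rename_prodR, map_add, map_one, rename_X, hcutA]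
      rw [hwt, C_1, one_mul, hren, ih2] at e2
      constructor
      · rw [prodR, SSR, if_pos hβ, add_mul, one_mul, map_add, mul_assoc, phi_C_D2, e1, ih1]
        ring
      · rw [prodR, SSR, if_pos hβ]
        have e3 : (1 + C t * X (β, 0)) * prodR L * (1 + X (b e + 1, e)) =
            prodR L * (1 + X (b e + 1, e)) +
              C t * (X (β, 0) * (prodR L * (1 + X (b e + 1, e)))) := by ring
        rw [e3, map_add, phi_C_D2, e2, ih2]
        ring
    · have hB : ¬ has b e (β, 0) := fun hh => hβ hh.2
      have hvars : ∀ c ∈ (1 + C t * X (β, 0) : Alg).vars, ¬ has b e c := by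
        intro c hc
        rcases Finset.mem_union.1 (vars_add_subset _ _ hc) with h5 | h5
        · rw [vars_one] at h5
          exact absurd h5 (Finset.notMem_empty c)
        · have h6 := vars_mul _ _ h5
          rw [vars_C, Finset.empty_union, vars_X, Finset.mem_singleton] at h6
          rw [h6]
          exact hB
      constructor
      · rw [prodR, SSR, if_neg hβ, zero_add, phi_out h2 b e _ _ hvars, ih1]
      · rw [prodR, SSR, if_neg hβ, zero_add, mul_assoc, phi_out h2 b e _ _ hvars, ih2]
        ring

/-- the step with a new token of weight `m` -/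
theorem SS_step_m (h2 : StBot) (h3 : StUp) (b : ℕ → ℕ) (e : ℕ) (m : ℝ) (L : List (ℕ × ℝ))
    (hL : L.Pairwise (fun p q => q.1 ≤ p.1)) :
    phi b 0 e (prodR L * (1 + C m * X (b e + 1, e))) =
      C m * prodR L + (1 + C m * X (b e, 0)) * SSR b e L := by
  obtain ⟨h4, h5⟩ := SS_step h2 h3 b e L hL
  have e1 : prodR L * (1 + X (b e + 1, e)) = prodR L + prodR L * X (b e + 1, e) := by ring
  rw [e1, map_add, h4] at h5
  have e2 : prodR L * (1 + C m * X (b e + 1, e)) = prodR L + C m * (prodR L * X (b e + 1, e)) := by ring
  rw [e2, map_add, phi_C_D2, h4]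
  linear_combination C m * h5

/-- telescoping -/
theorem Tel (b : ℕ → ℕ) (e : ℕ) (m : ℝ) (L : List (ℕ × ℝ)) :
    SXR b m e L + C m * prodR (L.map (cutR b e)) =
      (1 + C m * X (b e, 0)) * SSR b e L + C m * prodR L := by
  induction L with
  | nil => simp [SXR, SSR, prodR]
  | cons p L ih =>
    obtain ⟨β, t⟩ := p
    simp only [SXR, SSR, List.map_cons, cutR, prodR]
    by_cases h : b e < β
    · simp only [if_pos h, min_eq_right h.le]
      linear_combination (1 + C t * X (β, 0)) * ih
    · simp only [if_neg h, min_eq_left (not_lt.mp h)]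
      linear_combination (1 + C t * X (β, 0)) * ih

end Pool.Agent.Helper13.PS
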