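import Pool.Agent.Helper13.PS.D2

/-!
# PS: the recursion of `FFR` in terms of `SXR` and the static identity
-/

set_option autoImplicit false

namespace Pool.Agent.Helper13.PS

open MvPolynomial
open Pool.Agent.Helper51.PE (Tok Alg has cut wt key tle pr mon phi phiL V cc0 yt xt leb gt StBot StUp
  StVan StEqv)

private theorem spl_pw_D5 (b : ℕ → ℕ) (μ ν : ℕ → ℝ) (e : ℕ) : ∀ L : List (ℕ × ℝ),
    L.Pairwise (fun p q => q.1 ≤ p.1) → ∀ p ∈ splR b μ ν e L,
      p.2.Pairwise (fun p q => q.1 ≤ p.1) ∧
      ∀ B : ℕ, (∀ z ∈ L, z.1 ≤ B) → ∀ x ∈ p.2, x.1 ≤ B := by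
  intro L
  induction L with
  | nil => intro _ p hp; simp [splR] at hp
  | cons a L ih =>
    obtain ⟨β, t⟩ := a
    intro hL p hp
    rw [List.pairwise_cons] at hL
    obtain ⟨h1, h2⟩ := hL
    simp only [splR, List.mem_append, List.mem_map] at hp
    rcases hp with hp | ⟨q, hq, rfl⟩
    · split_ifs at hp with hb
      · rw [List.mem_singleton] at hp
        subst hp
        refine ⟨?_, ?_⟩
        · simp only [List.pairwise_cons, List.mem_cons, List.mem_map]
          refine ⟨?_, ?_, ?_⟩
          · rintro x (rfl | ⟨z, _, rfl⟩)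
            · exact hb.le
            · exact (min_le_right _ _).trans hb.le
          · rintro x ⟨z, _, rfl⟩
            exact min_le_right _ _
          · rw [List.pairwise_map]
            exact h2.imp (fun h => min_le_min h le_rfl)
        · intro B hB x hx
          have hβ : β ≤ B := hB (β, t) List.mem_cons_self
          simp only [List.mem_cons, List.mem_map] at hx
          rcases hx with rfl | rfl | ⟨z, _, rfl⟩
          · exact hβ
          · exact hb.le.trans hβ
          · exact (min_le_right _ _).trans (hb.le.trans hβ)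
      · simp at hp
    · obtain ⟨i1, i2⟩ := ih h2 q hq
      refine ⟨?_, ?_⟩
      · rw [List.pairwise_cons]
        exact ⟨fun x hx => i2 β (fun z hz => h1 z hz) x hx, i1⟩
      · intro B hB x hx
        rw [List.mem_cons] at hx
        rcases hx with rfl | hx
        · exact hB (β, t) List.mem_cons_self
        · exact i2 B (fun z hz => hB z (List.mem_cons_of_mem _ hz)) x hx

private theorem sum_D5 (b : ℕ → ℕ) (μ ν : ℕ → ℝ) (e : ℕ) (K : Alg →ₗ[ℝ] ℝ) (r : Alg) :
    ∀ (L : List (ℕ × ℝ)) (q : Alg),
      ((splR b μ ν e L).map (fun p => p.1 * K (q * prodR p.2 * r))).sum =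
        K (q * SXR b (μ e) e L * (1 + C (ν e) * X (b e, 0)) * r) := by
  have hC : ∀ (c : ℝ) (f : Alg), c * K f = K (C c * f) := by
    intro c f
    rw [← smul_eq_C_mul, map_smul, smul_eq_mul]
  intro L
  induction L with
  | nil => intro q; simp [splR, SXR]
  | cons a L ih =>
    obtain ⟨β, t⟩ := a
    intro q
    have e2 : (((splR b μ ν e L).map (fun p => (p.1, (β, t) :: p.2))).map
        (fun p => p.1 * K (q * prodR p.2 * r))).sum =
        K (q * ((1 + C t * X (β, 0)) * SXR b (μ e) e L) * (1 + C (ν e) * X (b e, 0)) * r) := by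
      rw [List.map_map]
      have := ih (q * (1 + C t * X (β, 0)))
      rw [show q * ((1 + C t * X (β, 0)) * SXR b (μ e) e L) * (1 + C (ν e) * X (b e, 0)) * r =
        q * (1 + C t * X (β, 0)) * SXR b (μ e) e L * (1 + C (ν e) * X (b e, 0)) * r by ring, ← this]
      congr 1
      apply List.map_congr_left
      intro p _
      simp only [Function.comp, prodR]
      congr 2
      ring
    simp only [splR, List.map_append, List.sum_append, SXR]
    rw [e2]
    by_cases hb : b e < β
    · simp only [if_pos hb, List.map_cons, List.map_nil, List.sum_cons, List.sum_nil, add_zero, prodR]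
      rw [hC, ← map_add]
      congr 1
      ring
    · simp only [if_neg hb, List.map_nil, List.sum_nil, zero_add]

theorem SplSX (b : ℕ → ℕ) (μ ν : ℕ → ℝ) (e : ℕ) (K : Alg →ₗ[ℝ] ℝ) (F : List (ℕ × ℝ) → ℝ) (r : Alg)
    (hF : ∀ L' : List (ℕ × ℝ), L'.Pairwise (fun p q => q.1 ≤ p.1) → F L' = K (prodR L' * r))
    (L : List (ℕ × ℝ)) (hL : L.Pairwise (fun p q => q.1 ≤ p.1)) :
    ((splR b μ ν e L).map (fun p => p.1 * F p.2)).sum =
      K (SXR b (μ e) e L * (1 + C (ν e) * X (b e, 0)) * r) := by
  have h := sum_D5 b μ ν e K r L 1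
  rw [one_mul] at h
  rw [← h]
  congr 1
  apply List.map_congr_left
  intro p hp
  rw [hF p.2 (spl_pw_D5 b μ ν e L hL p hp).1, one_mul]

/-- the constant coefficient of `prodR` -/
private theorem cc_prodR_D6 : ∀ L : List (ℕ × ℝ), cc0 (prodR L) = 1 := by
  intro L
  show coeff 0 (prodR L) = 1
  rw [← constantCoeff_eq]
  induction L with
  | nil => simp [prodR]
  | cons p L ih =>
    obtain ⟨β, t⟩ := p
    simp [prodR, ih]

/-- replacing a token in a linear factor -/
private theorem rep_D6 (W : Alg →ₗ[ℝ] ℝ) (a c : Tok) (h : ∀ f : Alg, W (f * X a) = W (f * X c))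
    (f : Alg) (r : ℝ) : W (f * (1 + C r * X a)) = W (f * (1 + C r * X c)) := by
  rw [mul_add, mul_add, map_add, map_add, mul_one, ← mul_assoc, ← mul_assoc, h]

/-- variables of a linear factor -/
private theorem lin_D6 (r : ℝ) (a : Tok) : ∀ c ∈ ((1 + C r * X a) : Alg).vars, c = a := by
  intro c hc
  have h3 := vars_add_subset _ _ hc
  rw [Finset.mem_union, vars_one] at h3
  rcases h3 with h3 | h3
  · exact absurd h3 (Finset.notMem_empty c)
  · have h4 := vars_mul _ _ h3
    rw [Finset.mem_union, vars_C, vars_X] at h4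
    rcases h4 with h4 | h4
    · exact absurd h4 (Finset.notMem_empty c)
    · exact Finset.mem_singleton.1 h4

/-- variables of `fut` -/
private theorem vars_fut_D6 (b : ℕ → ℕ) (n : ℕ) (μ ν : ℕ → ℝ) : ∀ d : ℕ, d ≤ n →
    ∀ c ∈ (futR b n μ ν d).vars, ∃ u, n - d ≤ u ∧ u < n ∧ (c = yt b u ∨ c = xt b n u) := by
  intro d
  induction d with
  | zero =>
    intro _ c hc
    rw [futR] at hc
    rw [vars_one] at hc
    exact absurd hc (Finset.notMem_empty c)
  | succ d ih =>
    intro hd c hc
    rw [futR] at hc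
    have h1 := vars_mul _ _ hc
    rw [Finset.mem_union] at h1
    rcases h1 with h1 | h1
    · have h2 := vars_mul _ _ h1
      rw [Finset.mem_union] at h2
      rcases h2 with h2 | h2
      · exact ⟨n - (d + 1), le_rfl, by omega, Or.inl (lin_D6 _ _ c h2)⟩
      · exact ⟨n - (d + 1), le_rfl, by omega, Or.inr (lin_D6 _ _ c h2)⟩
    · obtain ⟨u, h2, h3, h4⟩ := ih (by omega) c h1
      exact ⟨u, by omega, h3, h4⟩

/-- the first coordinate of `xt` -/
private theorem xt_D6 (b : ℕ → ℕ) (n u : ℕ) :
    (xt b n u).2 = u ∧ ((xt b n u).1 = b u ∨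
      ((xt b n u).1 = b u + 1 ∧ ∃ v, u < v ∧ v < n ∧ b u < b v)) := by
  unfold xt
  split_ifs with h
  · exact ⟨rfl, Or.inr ⟨rfl, h⟩⟩
  · exact ⟨rfl, Or.inl rfl⟩

/-- `SX` and `SS` have the same value if all tokens above `b e` are equivalent to `(b e, 0)` -/
private theorem sx_ss_D6 (b : ℕ → ℕ) (m : ℝ) (e : ℕ) (W : Alg →ₗ[ℝ] ℝ)
    (hW : ∀ β, b e < β → ∀ f : Alg, W (f * X ((β, 0) : Tok)) = W (f * X ((b e, 0) : Tok))) :
    ∀ (L : List (ℕ × ℝ)) (h : Alg),
      W (h * SXR b m e L) = W (h * ((1 + C m * X ((b e, 0) : Tok)) * SSR b e L)) := by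
  intro L
  induction L with
  | nil =>
    intro h
    rw [SXR, SSR, mul_zero, mul_zero, mul_zero]
  | cons p L ih =>
    obtain ⟨β, t⟩ := p
    intro h
    rw [SXR, SSR]
    have h1 := ih (h * (1 + C t * X (β, 0)))
    by_cases hb : b e < β
    · rw [if_pos hb, if_pos hb]
      have h2 := rep_D6 W (β, 0) (b e, 0) (hW β hb) (h * (C t * prodR (L.map (cutR b e)))) m
      have e1 : h * (C t * (1 + C m * X ((β, 0) : Tok)) * prodR (L.map (cutR b e)) +
          (1 + C t * X (β, 0)) * SXR b m e L) =
          h * (C t * prodR (L.map (cutR b e))) * (1 + C m * X ((β, 0) : Tok)) +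
          h * (1 + C t * X (β, 0)) * SXR b m e L := by ring
      have e2 : h * ((1 + C m * X ((b e, 0) : Tok)) * (C t * prodR (L.map (cutR b e)) +
          (1 + C t * X (β, 0)) * SSR b e L)) =
          h * (C t * prodR (L.map (cutR b e))) * (1 + C m * X ((b e, 0) : Tok)) +
          h * (1 + C t * X (β, 0)) * ((1 + C m * X ((b e, 0) : Tok)) * SSR b e L) := by ring
      rw [e1, e2, map_add, map_add, h1, h2]
    · rw [if_neg hb, if_neg hb, zero_add, zero_add]
      have e2 : h * ((1 + C m * X ((b e, 0) : Tok)) * ((1 + C t * X (β, 0)) * SSR b e L)) =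
          h * (1 + C t * X (β, 0)) * ((1 + C m * X ((b e, 0) : Tok)) * SSR b e L) := by ring
      rw [e2, ← h1, mul_assoc]

theorem Static (d1 : StVan) (s2 : StBot) (s3 : StUp) (d4 : StEqv) (b : ℕ → ℕ) (n : ℕ) (μ ν : ℕ → ℝ)
    (hinj : Set.InjOn b (Set.Iio n)) : ∀ (d : ℕ), d ≤ n → ∀ L : List (ℕ × ℝ),
    L.Pairwise (fun p q => q.1 ≤ p.1) →
    FFR b n μ ν d L = V b 0 n d (prodR L * futR b n μ ν d) := by
  intro d
  induction d with
  | zero =>
    intro _ L _
    show (1 : ℝ) = cc0 (prodR L * futR b n μ ν 0)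
    rw [futR, mul_one, cc_prodR_D6]
  | succ d ih =>
    intro hd L hL
    have ih' := ih (by omega)
    obtain ⟨e, he⟩ : ∃ e, e = n - (d + 1) := ⟨_, rfl⟩
    have hed : n - d = e + 1 := by omega
    have hen : e < n := by omega
    set R := futR b n μ ν d with hR
    set W := V b 0 n d with hWdef
    have hleft : FFR b n μ ν (d + 1) L = W (SXR b (μ e) e L * (1 + C (ν e) * X (b e, 0)) * R) := by
      have := SplSX b μ ν e W (FFR b n μ ν d) R (fun L' hL' => ih' L' hL') L hL
      rw [← this, FFR, ← he]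
    have hright : V b 0 n (d + 1) (prodR L * futR b n μ ν (d + 1)) =
        W (phi b 0 e (prodR L * ((1 + C (ν e) * X (yt b e)) * (1 + C (μ e) * X (xt b n e)) * R))) := by
      rw [V, futR, ← he]
      rfl
    have hRvars : ∀ c ∈ R.vars, ∃ u, e < u ∧ u < n ∧ (c = yt b u ∨ c = xt b n u) := by
      intro c hc
      obtain ⟨u, h1, h2, h3⟩ := vars_fut_D6 b n μ ν d (by omega) c hc
      exact ⟨u, by omega, h2, h3⟩
    -- `e` may not use the variables of `R`
    have hRno : ∀ c ∈ R.vars, ¬ has b e c := by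
      intro c hc
      obtain ⟨u, h1, h2, h3⟩ := hRvars c hc
      rintro ⟨h4, -⟩
      rcases h3 with rfl | rfl
      · change u ≤ e at h4
        omega
      · rw [(xt_D6 b n u).1] at h4
        omega
    have hyno : ∀ c ∈ ((1 + C (ν e) * X (yt b e)) : Alg).vars, c = (b e, e) := lin_D6 _ _
    have hgno : ∀ c ∈ ((1 + C (ν e) * X (yt b e)) * R : Alg).vars, ¬ has b e c := by
      intro c hc
      have h1 := vars_mul _ _ hc
      rw [Finset.mem_union] at h1
      rcases h1 with h1 | h1
      · rw [hyno c h1]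
        rintro ⟨-, h2⟩
        exact lt_irrefl _ h2
      · exact hRno c h1
    have hrep : ∀ f : Alg, W (f * X ((b e, e) : Tok)) = W (f * X ((b e, 0) : Tok)) := by
      intro f
      exact d4 b n d (b e, e) (b e, 0) f (by omega) (by show e ≤ n - d; omega) (Nat.zero_le _)
        (fun v _ _ => Iff.rfl)
    have s4 := SS_step_m s2 s3 b e (μ e) L hL
    have s5 := (SS_step s2 s3 b e L hL).1
    rw [hleft, hright]
    by_cases hv : ∃ v, e < v ∧ v < n ∧ b e < b v
    · -- case (a)
      have hxt : xt b n e = (b e + 1, e) := by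
        unfold xt
        rw [if_pos hv]
      rw [hxt]
      have e1 : prodR L * ((1 + C (ν e) * X (yt b e)) * (1 + C (μ e) * X ((b e + 1, e) : Tok)) * R) =
          ((1 + C (ν e) * X (yt b e)) * R) * (prodR L * (1 + C (μ e) * X ((b e + 1, e) : Tok))) := by ring
      have h3 := Tel b e (μ e) L
      rw [e1, phi_out s2 b e _ _ hgno, s4]
      have e2 : C (μ e) * prodR L + (1 + C (μ e) * X ((b e, 0) : Tok)) * SSR b e L =
          SXR b (μ e) e L + C (μ e) * prodR (L.map (cutR b e)) := by
        rw [h3]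
        ring
      rw [e2, mul_add ((1 + C (ν e) * X (yt b e)) * R) (SXR b (μ e) e L), map_add]
      -- the second part vanishes
      obtain ⟨z, hz1, hz2⟩ : ∃ z ∈ Finset.Ioo e n, ∀ u ∈ Finset.Ioo e n, b u ≤ b z := by
        obtain ⟨v, hv1, hv2, -⟩ := hv
        exact Finset.exists_max_image (Finset.Ioo e n) b ⟨v, Finset.mem_Ioo.2 ⟨hv1, hv2⟩⟩
      rw [Finset.mem_Ioo] at hz1
      have hbe : b e ≤ b z := by
        obtain ⟨v, hv1, hv2, hv3⟩ := hv
        exact hv3.le.trans (hz2 v (Finset.mem_Ioo.2 ⟨hv1, hv2⟩))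
      have hzero : W ((1 + C (ν e) * X (yt b e)) * R * (C (μ e) * prodR (L.map (cutR b e)))) = 0 := by
        refine d1 b n d z _ (by omega) (by omega) hz1.2 ?_
        intro c hc
        have h1 := vars_mul _ _ hc
        rw [Finset.mem_union] at h1
        rcases h1 with h1 | h1
        · have h2 := vars_mul _ _ h1
          rw [Finset.mem_union] at h2
          rcases h2 with h2 | h2
          · rw [hyno c h2]
            exact hbe
          · obtain ⟨u, h4, h5, h6⟩ := hRvars c h2
            have h7 := hz2 u (Finset.mem_Ioo.2 ⟨h4, h5⟩)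
            rcases h6 with rfl | rfl
            · exact h7
            · rcases (xt_D6 b n u).2 with h8 | ⟨h8, v, h9, h10, h11⟩
              · rw [h8]
                exact h7
              · rw [h8]
                have := hz2 v (Finset.mem_Ioo.2 ⟨by omega, h10⟩)
                omega
        · have h12 := vars_mul _ _ h1
          rw [Finset.mem_union, vars_C] at h12
          rcases h12 with h12 | h12
          · exact absurd h12 (Finset.notMem_empty c)
          · obtain ⟨p, hp, rfl⟩ := vars_prodR _ c h12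
            obtain ⟨q, hq, rfl⟩ := List.mem_map.1 hp
            show min q.1 (b e) ≤ b z
            exact (min_le_right _ _).trans hbe
      rw [hzero, add_zero]
      have e3 : (1 + C (ν e) * X (yt b e)) * R * SXR b (μ e) e L =
          (R * SXR b (μ e) e L) * (1 + C (ν e) * X ((b e, e) : Tok)) := by
        have : yt b e = (b e, e) := rfl
        rw [this]
        ring
      have e4 : SXR b (μ e) e L * (1 + C (ν e) * X ((b e, 0) : Tok)) * R =
          (R * SXR b (μ e) e L) * (1 + C (ν e) * X ((b e, 0) : Tok)) := by ring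
      rw [e3, e4, rep_D6 W _ _ hrep]
    · -- case (b)
      have hxt : xt b n e = (b e, e) := by
        unfold xt
        rw [if_neg hv]
      have hlt : ∀ v, e < v → v < n → b v < b e := by
        intro v h1 h2
        have h3 : b v ≠ b e := fun h => by
          have := hinj (Set.mem_Iio.2 h2) (Set.mem_Iio.2 hen) h
          omega
        have h4 : ¬ b e < b v := fun h => hv ⟨v, h1, h2, h⟩
        omega
      rw [hxt]
      have hgno2 : ∀ c ∈ ((1 + C (ν e) * X (yt b e)) * R * (1 + C (μ e) * X ((b e, e) : Tok)) : Alg).vars,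
          ¬ has b e c := by
        intro c hc
        have h1 := vars_mul _ _ hc
        rw [Finset.mem_union] at h1
        rcases h1 with h1 | h1
        · exact hgno c h1
        · rw [lin_D6 _ _ c h1]
          rintro ⟨-, h2⟩
          exact lt_irrefl _ h2
      have e1 : prodR L * ((1 + C (ν e) * X (yt b e)) * (1 + C (μ e) * X ((b e, e) : Tok)) * R) =
          ((1 + C (ν e) * X (yt b e)) * R * (1 + C (μ e) * X ((b e, e) : Tok))) * prodR L := by ring
      rw [e1, phi_out s2 b e _ _ hgno2, s5]
      have e2 : (1 + C (ν e) * X (yt b e)) * R * (1 + C (μ e) * X ((b e, e) : Tok)) * SSR b e L =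
          (R * SSR b e L * (1 + C (μ e) * X ((b e, e) : Tok))) * (1 + C (ν e) * X ((b e, e) : Tok)) := by
        have : yt b e = (b e, e) := rfl
        rw [this]
        ring
      have e3 : (R * SSR b e L * (1 + C (μ e) * X ((b e, e) : Tok))) * (1 + C (ν e) * X ((b e, 0) : Tok)) =
          (R * SSR b e L * (1 + C (ν e) * X ((b e, 0) : Tok))) * (1 + C (μ e) * X ((b e, e) : Tok)) := by ring
      rw [e2, rep_D6 W _ _ hrep, e3, rep_D6 W _ _ hrep]
      have h5 := sx_ss_D6 b (μ e) e W (fun β hβ f => by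
        refine d4 b n d (β, 0) (b e, 0) f (by omega) (Nat.zero_le _) (Nat.zero_le _) ?_
        intro v h6 h7
        have h8 := hlt v (by omega) h7
        show b v < β ↔ b v < b e
        constructor
        · intro _
          exact h8
        · intro _
          omega) L ((1 + C (ν e) * X ((b e, 0) : Tok)) * R)
      have e4 : SXR b (μ e) e L * (1 + C (ν e) * X ((b e, 0) : Tok)) * R =
          (1 + C (ν e) * X ((b e, 0) : Tok)) * R * SXR b (μ e) e L := by ring
      have e5 : (R * SSR b e L * (1 + C (ν e) * X ((b e, 0) : Tok))) * (1 + C (μ e) * X ((b e, 0) : Tok)) =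
          (1 + C (ν e) * X ((b e, 0) : Tok)) * R * ((1 + C (μ e) * X ((b e, 0) : Tok)) * SSR b e L) := by ring
      rw [e4, e5, h5]

end Pool.Agent.Helper13.PS
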