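import Pool.Agent.Helper51.PE.All

/-!
PROJECT PS (MP_6da2a2_co, helper13): extension of PROJECT PE2 (helper51) from natural labellings to
labellings in which the sign of a cover relation depends only on one of its two elements.

The token model of PE2 with arbitrary weights: a word (list, head = last letter) of the elements
`0, ..., n-1` gets the weight `ν u` for every descent with smaller letter `u` and `μ u` for every
ascent with smaller letter `u`.
-/

set_option autoImplicit false

namespace Pool.Agent.Helper13.PS

open MvPolynomial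
open Pool.Agent.Helper51.PE (Tok Alg has cut wt key tle pr mon phi V cc0 yt xt leb gt)

/-- product over the present links (threshold, weight) -/
noncomputable def prodR : List (ℕ × ℝ) → Alg
  | [] => 1
  | (β, r) :: L => (1 + C r * X (β, 0)) * prodR L

/-- the factors of the tokens of the last `d` elements -/
noncomputable def futR (b : ℕ → ℕ) (n : ℕ) (μ ν : ℕ → ℝ) : ℕ → Alg
  | 0 => 1
  | d + 1 => (1 + C (ν (n - (d + 1))) * X (yt b (n - (d + 1)))) *
      (1 + C (μ (n - (d + 1))) * X (xt b n (n - (d + 1)))) * futR b n μ ν d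

/-- the cut link -/
def cutR (b : ℕ → ℕ) (e : ℕ) (p : ℕ × ℝ) : ℕ × ℝ := (min p.1 (b e), p.2)

/-- all insertions of `e` into the list of links: the weight of the link which is used and the
new list of links -/
def splR (b : ℕ → ℕ) (μ ν : ℕ → ℝ) (e : ℕ) : List (ℕ × ℝ) → List (ℝ × List (ℕ × ℝ))
  | [] => []
  | (β, r) :: L =>
      (if b e < β then [(r, (β, μ e) :: (b e, ν e) :: L.map (cutR b e))] else []) ++
        (splR b μ ν e L).map (fun p => (p.1, (β, r) :: p.2))

/-- sum over the uses of a link by `e`, without the new tokens -/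
noncomputable def SSR (b : ℕ → ℕ) (e : ℕ) : List (ℕ × ℝ) → Alg
  | [] => 0
  | (β, r) :: L => (if b e < β then C r * prodR (L.map (cutR b e)) else 0) +
      (1 + C r * X (β, 0)) * SSR b e L

/-- the same with the new token to the right, of weight `m` -/
noncomputable def SXR (b : ℕ → ℕ) (m : ℝ) (e : ℕ) : List (ℕ × ℝ) → Alg
  | [] => 0
  | (β, r) :: L =>
      (if b e < β then C r * (1 + C m * X (β, 0)) * prodR (L.map (cutR b e)) else 0) +
      (1 + C r * X (β, 0)) * SXR b m e L

/-- generating function of the insertions of the last `d` elements -/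
noncomputable def FFR (b : ℕ → ℕ) (n : ℕ) (μ ν : ℕ → ℝ) : ℕ → List (ℕ × ℝ) → ℝ
  | 0, _ => 1
  | d + 1, L => ((splR b μ ν (n - (d + 1)) L).map (fun p => p.1 * FFR b n μ ν d p.2)).sum

/-- the links of a word (head = last letter) below its last link: thresholds and weights -/
noncomputable def linksB (b : ℕ → ℕ) (μ ν : ℕ → ℝ) : ℕ → List ℕ → List (ℕ × ℝ)
  | _, [] => []
  | β, [x] => [(min β (b x), ν x)]
  | β, x :: z :: l => (min β (b x), if z < x then ν x else μ z) ::
      linksB b μ ν (min β (b x)) (z :: l)

/-- all links of a word -/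
noncomputable def linksR (b : ℕ → ℕ) (μ ν : ℕ → ℝ) (N : ℕ) : List ℕ → List (ℕ × ℝ)
  | [] => []
  | x :: l => (N, μ x) :: linksB b μ ν N (x :: l)

/-- weight of a word (head = last letter) -/
noncomputable def ww (μ ν : ℕ → ℝ) : List ℕ → ℝ
  | [] => 1
  | [_] => 1
  | x :: z :: l => (if x < z then ν x else μ z) * ww μ ν (z :: l)

/-- weight of the token `g` -/
noncomputable def wg (μ ν : ℕ → ℝ) {n : ℕ} (g : Fin n × Bool) : ℝ :=
  if g.2 then ν g.1.val else μ g.1.val

end Pool.Agent.Helper13.PS
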