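import Pool.Agent.Helper13.PS.Defs

/-!
# PS: insertions of the largest letter and links
-/

set_option autoImplicit false

namespace Pool.Agent.Helper13.PS

open Pool.Agent.Helper51.PE (leb)

private theorem filt_E1 {α : Type} (L : List α) (p : α → Bool) (f : α → ℝ) :
    ((L.filter p).map f).sum = (L.map (fun w => if p w = true then f w else 0)).sum := by
  induction L with
  | nil => rfl
  | cons a L ih =>
    rw [List.filter_cons]
    by_cases h : p a = true
    · rw [if_pos h, List.map_cons, List.map_cons, List.sum_cons, List.sum_cons, if_pos h, ih]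
    · rw [if_neg h, List.map_cons, List.sum_cons, if_neg h, zero_add, ih]

private theorem cut_E1 (b : ℕ → ℕ) (μ ν : ℕ → ℝ) (t : ℕ) : ∀ (l : List ℕ) (β : ℕ),
    (linksB b μ ν β l).map (cutR b t) = linksB b μ ν (min β (b t)) l
  | [], β => rfl
  | [x], β => by
      simp only [linksB, List.map_cons, List.map_nil, cutR]
      congr 2
      omega
  | x :: z :: l, β => by
      have ih := cut_E1 b μ ν t (z :: l) (min β (b x))
      simp only [linksB, List.map_cons, cutR]
      have h1 : min (min β (b x)) (b t) = min (min β (b t)) (b x) := by omega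
      rw [h1] at ih ⊢
      rw [ih]

private theorem spl_nil_E1 (b : ℕ → ℕ) (μ ν : ℕ → ℝ) (t : ℕ) : ∀ L : List (ℕ × ℝ),
    (∀ p ∈ L, p.1 ≤ b t) → splR b μ ν t L = []
  | [], _ => rfl
  | (β, s) :: L, h => by
      have h1 : β ≤ b t := h (β, s) (by simp)
      have h2 := spl_nil_E1 b μ ν t L (fun p hp => h p (by simp [hp]))
      simp only [splR, h2, List.map_nil, List.append_nil]
      rw [if_neg (by omega)]

private theorem linksB_le_E1 (b : ℕ → ℕ) (μ ν : ℕ → ℝ) : ∀ (l : List ℕ) (β : ℕ),
    ∀ p ∈ linksB b μ ν β l, p.1 ≤ β
  | [], β, p, hp => by simp [linksB] at hp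
  | [x], β, p, hp => by
      simp only [linksB, List.mem_singleton] at hp
      subst hp
      exact min_le_left _ _
  | x :: z :: l, β, p, hp => by
      simp only [linksB, List.mem_cons] at hp
      rcases hp with hp | hp
      · subst hp
        exact min_le_left _ _
      · have := linksB_le_E1 b μ ν (z :: l) (min β (b x)) p (by simpa using hp)
        exact this.trans (min_le_left _ _)

private theorem linksB_cons_le_E1 (b : ℕ → ℕ) (μ ν : ℕ → ℝ) (x β : ℕ) (l : List ℕ) :
    ∀ p ∈ linksB b μ ν β (x :: l), p.1 ≤ b x := by
  intro p hp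
  cases l with
  | nil =>
    simp only [linksB, List.mem_singleton] at hp
    subst hp
    exact min_le_right _ _
  | cons z l =>
    simp only [linksB, List.mem_cons] at hp
    rcases hp with hp | hp
    · subst hp
      exact min_le_right _ _
    · have := linksB_le_E1 b μ ν (z :: l) (min β (b x)) p (by simpa using hp)
      exact this.trans (min_le_right _ _)

private theorem mem_perm_E1 (t : ℕ) : ∀ (l w : List ℕ), w ∈ List.permutations'Aux t l →
    t ∈ w ∧ ∀ z ∈ w, z = t ∨ z ∈ l
  | [], w, h => by
      simp only [List.permutations'Aux, List.mem_singleton] at h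
      subst h
      simp
  | x :: l, w, h => by
      simp only [List.permutations'Aux, List.mem_cons, List.mem_map] at h
      rcases h with h | ⟨w', h, rfl⟩
      · subst h
        refine ⟨by simp, ?_⟩
        intro z hz
        simpa using hz
      · have ih := mem_perm_E1 t l w' h
        refine ⟨by simp [ih.1], ?_⟩
        intro z hz
        rcases List.mem_cons.1 hz with hz | hz
        · right; simp [hz]
        · rcases ih.2 z hz with h1 | h1
          · left; exact h1
          · right; simp [h1]

private theorem leb_right_E1 {b : ℕ → ℕ} {x t : ℕ} (h1 : x < t) (h2 : b x ≠ b t) :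
    ¬ leb b x t ↔ b t < b x := by
  unfold leb
  constructor
  · intro h
    by_contra h3
    exact h (Or.inr ⟨h1, by omega⟩)
  · intro h h3
    rcases h3 with h3 | h3 <;> omega

private theorem leb_left_E1 {b : ℕ → ℕ} {z t : ℕ} (h1 : z < t) : ¬ leb b t z := by
  unfold leb
  intro h3
  rcases h3 with h3 | h3 <;> omega

open Classical in
private theorem main_E1 (b : ℕ → ℕ) (μ ν : ℕ → ℝ) (t : ℕ) : ∀ (l : List ℕ) (x β : ℕ)
    (G : List (ℕ × ℝ) → ℝ), (∀ z ∈ x :: l, z < t ∧ b z ≠ b t) → b t < β →
    (x :: l).Pairwise (fun x z => ¬ leb b x z) →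
    ((List.permutations'Aux t l).map (fun w' =>
      if (x :: w').Pairwise (fun x z => ¬ leb b x z) then
        ww μ ν (x :: w') * G (linksB b μ ν β (x :: w')) else 0)).sum =
    ww μ ν (x :: l) * ((splR b μ ν t (linksB b μ ν β (x :: l))).map (fun p => p.1 * G p.2)).sum := by
  intro l
  induction l with
  | nil =>
    intro x β G hl hβ hp
    have hx := hl x (by simp)
    by_cases hb : b t < b x
    · have h1 : b t < min β (b x) := by omega
      have h2 : min (min β (b x)) (b t) = b t := by omega
      have h3 : [x, t].Pairwise (fun x z => ¬ leb b x z) := by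
        simp [leb_right_E1 hx.1 hx.2, hb]
      have h4 : ¬ t < x := by omega
      simp only [List.permutations'Aux, List.map_cons, List.map_nil, List.sum_cons, List.sum_nil,
        if_pos h3, linksB, splR, if_pos h1, h2, ww, if_pos hx.1, if_neg h4, List.append_nil]
      ring
    · have h3 : ¬ [x, t].Pairwise (fun x z => ¬ leb b x z) := by
        simp [leb_right_E1 hx.1 hx.2, hb]
      have h5 : splR b μ ν t (linksB b μ ν β [x]) = [] :=
        spl_nil_E1 b μ ν t _ (fun p hp => (linksB_cons_le_E1 b μ ν x β [] p hp).trans (by omega))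
      rw [h5]
      simp only [List.permutations'Aux, List.map_cons, List.map_nil, List.sum_cons, List.sum_nil,
        if_neg h3]
      simp
  | cons z l ih =>
    intro x β G hl hβ hp
    have hx := hl x (by simp)
    have hz := hl z (by simp)
    by_cases hb : b t < b x
    · have h1 : b t < min β (b x) := by omega
      have h2 : min (min β (b x)) (b t) = b t := by omega
      have hp' := List.pairwise_cons.1 hp
      have hp2 := List.pairwise_cons.1 hp'.2
      have hxt : ¬ leb b x t := (leb_right_E1 hx.1 hx.2).2 hb
      have h3 : (x :: t :: z :: l).Pairwise (fun x z => ¬ leb b x z) := by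
        rw [List.pairwise_cons, List.pairwise_cons]
        refine ⟨?_, ?_, hp'.2⟩
        · intro a ha
          rcases List.mem_cons.1 ha with rfl | ha
          · exact hxt
          · exact hp'.1 a ha
        · intro a ha
          exact leb_left_E1 (hl a (List.mem_cons_of_mem _ ha)).1
      have h4 : ¬ t < x := by omega
      have h5 : ¬ t < z := by omega
      have h6 : ∀ w' ∈ List.permutations'Aux t l,
          ((x :: z :: w').Pairwise (fun x z => ¬ leb b x z) ↔
            (z :: w').Pairwise (fun x z => ¬ leb b x z)) := by
        intro w' hw'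
        rw [List.pairwise_cons]
        constructor
        · exact fun h => h.2
        · intro h
          refine ⟨?_, h⟩
          intro a ha
          rcases List.mem_cons.1 ha with rfl | ha
          · exact hp'.1 _ (by simp)
          · rcases (mem_perm_E1 t l w' hw').2 a ha with rfl | h7
            · exact hxt
            · exact hp'.1 a (by simp [h7])
      have ih' := ih z (min β (b x))
        (fun L => G ((min β (b x), if z < x then ν x else μ z) :: L))
        (fun a ha => hl a (List.mem_cons_of_mem _ ha)) h1 hp'.2
      have h8 : (List.permutations'Aux t l).map (fun w' =>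
          if (x :: z :: w').Pairwise (fun x z => ¬ leb b x z) then
            ww μ ν (x :: z :: w') * G (linksB b μ ν β (x :: z :: w')) else 0) =
          (List.permutations'Aux t l).map (fun w' => (if x < z then ν x else μ z) *
            (if (z :: w').Pairwise (fun x z => ¬ leb b x z) then
            ww μ ν (z :: w') * G ((min β (b x), if z < x then ν x else μ z) ::
              linksB b μ ν (min β (b x)) (z :: w'))
            else 0)) := by
        apply List.map_congr_left
        intro w' hw'
        by_cases h9 : (z :: w').Pairwise (fun x z => ¬ leb b x z)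
        · rw [if_pos ((h6 w' hw').2 h9), if_pos h9, ww, linksB]
          ring
        · rw [if_neg (fun h => h9 ((h6 w' hw').1 h)), if_neg h9, mul_zero]
      have h9 : List.permutations'Aux t (z :: l) =
          (t :: z :: l) :: (List.permutations'Aux t l).map (List.cons z) := rfl
      rw [h9, List.map_cons, List.sum_cons, List.map_map]
      have h10 : ((fun w' => if (x :: w').Pairwise (fun x z => ¬ leb b x z) then
          ww μ ν (x :: w') * G (linksB b μ ν β (x :: w')) else 0) ∘ List.cons z) = (fun w' =>
          if (x :: z :: w').Pairwise (fun x z => ¬ leb b x z) then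
            ww μ ν (x :: z :: w') * G (linksB b μ ν β (x :: z :: w')) else 0) := rfl
      rw [h10, h8, List.sum_map_mul_left, ih', if_pos h3]
      have h11 : linksB b μ ν β (x :: z :: l) =
        (min β (b x), if z < x then ν x else μ z) :: linksB b μ ν (min β (b x)) (z :: l) := rfl
      have h12 : linksB b μ ν β (x :: t :: z :: l) = (min β (b x), μ t) :: (b t, ν t) ::
          (linksB b μ ν (min β (b x)) (z :: l)).map (cutR b t) := by
        rw [cut_E1]
        simp only [linksB, h2, if_neg h4, if_pos hz.1]
      have h13 : ww μ ν (x :: t :: z :: l) = ν x * (μ z * ww μ ν (z :: l)) := by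
        simp only [ww, if_pos hx.1, if_neg h5]
      have h14 : ww μ ν (x :: z :: l) = (if x < z then ν x else μ z) * ww μ ν (z :: l) := rfl
      have h15 : x ≠ z := by
        rintro rfl
        exact hp'.1 x (by simp) (Or.inl rfl)
      rw [h11, h12, h13, h14]
      simp only [splR, if_pos h1, List.singleton_append, List.map_cons, List.sum_cons, List.map_map]
      have h16 : ((fun p : ℝ × List (ℕ × ℝ) => p.1 * G p.2) ∘
          fun p : ℝ × List (ℕ × ℝ) => (p.1, (min β (b x), if z < x then ν x else μ z) :: p.2)) =
          fun p : ℝ × List (ℕ × ℝ) =>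
            p.1 * G ((min β (b x), if z < x then ν x else μ z) :: p.2) := rfl
      rw [h16]
      by_cases h17 : z < x
      · have h18 : ¬ x < z := by omega
        simp only [if_pos h17, if_neg h18]
        ring
      · have h18 : x < z := by omega
        simp only [if_neg h17, if_pos h18]
        ring
    · have h5 : splR b μ ν t (linksB b μ ν β (x :: z :: l)) = [] :=
        spl_nil_E1 b μ ν t _
          (fun p hp => (linksB_cons_le_E1 b μ ν x β (z :: l) p hp).trans (by omega))
      rw [h5]
      have h6 : (List.permutations'Aux t (z :: l)).map (fun w' =>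
          if (x :: w').Pairwise (fun x z => ¬ leb b x z) then
            ww μ ν (x :: w') * G (linksB b μ ν β (x :: w')) else 0) =
          (List.permutations'Aux t (z :: l)).map (fun _ => (0 : ℝ)) := by
        apply List.map_congr_left
        intro w' hw'
        rw [if_neg]
        intro h
        have h7 := (List.pairwise_cons.1 h).1 t (mem_perm_E1 t _ w' hw').1
        exact hb ((leb_right_E1 hx.1 hx.2).1 h7)
      have h7 : ∀ L : List (List ℕ), (L.map (fun _ => (0 : ℝ))).sum = 0 := by
        intro L
        simp
      rw [h6, h7]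
      simp

open Classical in
theorem Ins (b : ℕ → ℕ) (μ ν : ℕ → ℝ) (N t : ℕ) (w : List ℕ) (G : List (ℕ × ℝ) → ℝ) (hw : w ≠ [])
    (hlt : ∀ x ∈ w, x < t ∧ b x ≠ b t ∧ b x < N) (htN : b t < N)
    (hp : w.Pairwise (fun x z => ¬ leb b x z)) :
    (((List.permutations'Aux t w).filter (fun w' => decide (w'.Pairwise (fun x z => ¬ leb b x z)))).map
      (fun w' => ww μ ν w' * G (linksR b μ ν N w'))).sum =
    ww μ ν w * ((splR b μ ν t (linksR b μ ν N w)).map (fun p => p.1 * G p.2)).sum := by
  rw [filt_E1]
  obtain ⟨x, l, rfl⟩ := List.exists_cons_of_ne_nil hw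
  have hx := hlt x (by simp)
  have hl : ∀ z ∈ x :: l, z < t ∧ b z ≠ b t := fun z hz => ⟨(hlt z hz).1, (hlt z hz).2.1⟩
  have hmain := main_E1 b μ ν t l x N (fun L => G ((N, μ x) :: L)) hl htN hp
  have h9 : List.permutations'Aux t (x :: l) =
      (t :: x :: l) :: (List.permutations'Aux t l).map (List.cons x) := rfl
  have h3 : (t :: x :: l).Pairwise (fun x z => ¬ leb b x z) := by
    rw [List.pairwise_cons]
    exact ⟨fun a ha => leb_left_E1 (hl a ha).1, hp⟩
  have h4 : ¬ t < x := by omega
  rw [h9, List.map_cons, List.sum_cons, List.map_map]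
  have h10 : ((fun w' => if decide (w'.Pairwise (fun x z => ¬ leb b x z)) = true then
      ww μ ν w' * G (linksR b μ ν N w') else 0) ∘ List.cons x) = (fun w' =>
      if (x :: w').Pairwise (fun x z => ¬ leb b x z) then
        ww μ ν (x :: w') * G ((N, μ x) :: linksB b μ ν N (x :: w')) else 0) := by
    funext w'
    simp only [Function.comp, decide_eq_true_eq, linksR]
  rw [h10, hmain]
  have h11 : decide ((t :: x :: l).Pairwise (fun x z => ¬ leb b x z)) = true := decide_eq_true h3
  rw [if_pos h11]
  have h12 : linksR b μ ν N (t :: x :: l) = (N, μ t) :: (b t, ν t) ::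
      (linksB b μ ν N (x :: l)).map (cutR b t) := by
    rw [cut_E1]
    have h2 : min N (b t) = b t := by omega
    simp only [linksR, linksB, h2, if_pos hx.1]
  have h13 : ww μ ν (t :: x :: l) = μ x * ww μ ν (x :: l) := by
    simp only [ww, if_neg h4]
  rw [h12, h13]
  have h14 : linksR b μ ν N (x :: l) = (N, μ x) :: linksB b μ ν N (x :: l) := rfl
  rw [h14]
  simp only [splR, if_pos htN, List.singleton_append, List.map_cons, List.sum_cons, List.map_map]
  have h16 : ((fun p : ℝ × List (ℕ × ℝ) => p.1 * G p.2) ∘
      fun p : ℝ × List (ℕ × ℝ) => (p.1, (N, μ x) :: p.2)) =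
      fun p : ℝ × List (ℕ × ℝ) => p.1 * G ((N, μ x) :: p.2) := rfl
  rw [h16]
  ring

end Pool.Agent.Helper13.PS
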