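import Pool.Agent.Helper13.PS.E1

/-!
# PS: the generating function of words is `FFR`
-/

set_option autoImplicit false

namespace Pool.Agent.Helper13.PS

open Pool.Agent.Helper51.PE (leb)
open Pool.Agent.Helper50.PE (exts nd)

private theorem mem_aux_E2 (t : ℕ) (w w' : List ℕ) :
    w' ∈ List.permutations'Aux t w ↔ ∃ l1 l2, w = l1 ++ l2 ∧ w' = l1 ++ t :: l2 := by
  induction w generalizing w' with
  | nil =>
    constructor
    · intro h
      have h' : w' = [t] := by simpa [List.permutations'Aux] using h
      exact ⟨[], [], rfl, by simpa using h'⟩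
    · rintro ⟨l1, l2, h1, h2⟩
      have h3 := List.append_eq_nil_iff.mp h1.symm
      simp [List.permutations'Aux, h2, h3.1, h3.2]
  | cons x w ih =>
    rw [List.permutations'Aux, List.mem_cons, List.mem_map]
    constructor
    · rintro (h | ⟨u, hu, h⟩)
      · exact ⟨[], x :: w, rfl, by simpa using h⟩
      · obtain ⟨l1, l2, h1, h2⟩ := (ih u).mp hu
        exact ⟨x :: l1, l2, by simp [h1], by simp [← h, h2]⟩
    · rintro ⟨l1, l2, h1, h2⟩
      cases l1 with
      | nil =>
        left
        simp only [List.nil_append] at h1 h2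
        rw [h2, h1]
      | cons y l1 =>
        right
        simp only [List.cons_append, List.cons.injEq] at h1
        refine ⟨l1 ++ t :: l2, (ih _).mpr ⟨l1, l2, h1.2, rfl⟩, ?_⟩
        rw [h2, h1.1]
        rfl

theorem mem_exts_range (le : ℕ → ℕ → Prop) (t : ℕ) (w : List ℕ) :
    w ∈ exts le (Finset.range t) ↔ w.Perm (List.range t) ∧ w.Pairwise (fun x z => ¬ le x z) := by
  classical
  unfold Pool.Agent.Helper50.PE.exts
  rw [Finset.mem_filter, List.mem_toFinset, List.mem_permutations]
  have h : (Finset.range t).toList.Perm (List.range t) := by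
    apply List.perm_of_nodup_nodup_toFinset_eq (Finset.nodup_toList _) List.nodup_range
    ext x
    simp
  constructor
  · rintro ⟨h1, h2⟩
    exact ⟨h1.trans h, h2⟩
  · rintro ⟨h1, h2⟩
    exact ⟨h1.trans h.symm, h2⟩

open Classical in
private theorem fib_E2 (b : ℕ → ℕ) (t : ℕ) (w : List ℕ) (hw : w ∈ exts (leb b) (Finset.range t)) :
    (exts (leb b) (Finset.range (t + 1))).filter (fun w' => w'.erase t = w) =
      ((List.permutations'Aux t w).filter
        (fun w' => decide (w'.Pairwise (fun x z => ¬ leb b x z)))).toFinset := by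
  have hw' := (mem_exts_range _ _ _).mp hw
  have htw : t ∉ w := by
    intro h
    have := hw'.1.mem_iff.mp h
    simp at this
  ext w'
  rw [Finset.mem_filter, mem_exts_range, List.mem_toFinset, List.mem_filter, mem_aux_E2]
  simp only [decide_eq_true_eq]
  constructor
  · rintro ⟨⟨h1, h2⟩, h3⟩
    have ht : t ∈ w' := h1.mem_iff.mpr (by simp)
    obtain ⟨l1, l2, hn, h4, h5⟩ := List.exists_erase_eq ht
    refine ⟨⟨l1, l2, ?_, h4⟩, h2⟩
    rw [← h3, h5]
  · rintro ⟨⟨l1, l2, h1, h2⟩, h3⟩
    have hn : t ∉ l1 := fun h => htw (by rw [h1]; exact List.mem_append_left _ h)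
    refine ⟨⟨?_, h3⟩, ?_⟩
    · rw [h2, List.range_succ]
      have e1 : (l1 ++ t :: l2).Perm (t :: (l1 ++ l2)) := List.perm_middle
      have e2 : (List.range t ++ [t]).Perm (t :: List.range t) := List.perm_append_singleton _ _
      refine e1.trans (List.Perm.trans ?_ e2.symm)
      rw [← h1]
      exact hw'.1.cons t
    · rw [h2, List.erase_append_right _ hn, List.erase_cons_head, h1]

open Classical in
private theorem step_E2 (b : ℕ → ℕ) (t : ℕ) (f : List ℕ → ℝ) :
    ∑ w' ∈ exts (leb b) (Finset.range (t + 1)), f w' =
      ∑ w ∈ exts (leb b) (Finset.range t),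
        (((List.permutations'Aux t w).filter
          (fun w' => decide (w'.Pairwise (fun x z => ¬ leb b x z)))).map f).sum := by
  rw [← Finset.sum_fiberwise_of_maps_to (t := exts (leb b) (Finset.range t))
    (g := fun w' => w'.erase t)]
  · apply Finset.sum_congr rfl
    intro w hw
    have hw' := (mem_exts_range _ _ _).mp hw
    have htw : t ∉ w := by
      intro h
      have := hw'.1.mem_iff.mp h
      simp at this
    rw [fib_E2 b t w hw, List.sum_toFinset]
    exact (List.nodup_permutations'Aux_of_notMem _ _ htw).filter _
  · intro w' hw'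
    rw [mem_exts_range] at hw' ⊢
    refine ⟨?_, hw'.2.sublist List.erase_sublist⟩
    have h := hw'.1.erase t
    refine h.trans ?_
    rw [List.range_succ, List.erase_append_right _ (by simp)]
    simp

theorem Words (b : ℕ → ℕ) (μ ν : ℕ → ℝ) (n N : ℕ) (hn : 1 ≤ n) (hb : Set.InjOn b (Set.Iio n))
    (hN : ∀ v, v < n → b v < N) :
    ∑ w ∈ exts (leb b) (Finset.range n), ww μ ν w = FFR b n μ ν (n - 1) (linksR b μ ν N [0]) := by
  classical
  have key : ∀ t, 1 ≤ t → t ≤ n →
      ∑ w ∈ exts (leb b) (Finset.range t),
        ww μ ν w * FFR b n μ ν (n - t) (linksR b μ ν N w) =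
      FFR b n μ ν (n - 1) (linksR b μ ν N [0]) := by
    intro t ht
    induction t, ht using Nat.le_induction with
    | base =>
      intro _
      have h0 : exts (leb b) (Finset.range 1) = {[0]} := by
        ext w
        rw [mem_exts_range, Finset.mem_singleton]
        constructor
        · rintro ⟨h1, _⟩
          have : List.range 1 = [0] := rfl
          rw [this] at h1
          exact List.perm_singleton.mp h1
        · rintro rfl
          exact ⟨List.Perm.refl _, by simp⟩
      rw [h0, Finset.sum_singleton]
      simp [ww]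
    | succ t ht ih =>
      intro htn
      rw [← ih (by omega), step_E2]
      apply Finset.sum_congr rfl
      intro w hw
      have hw' := (mem_exts_range _ _ _).mp hw
      have hmem : ∀ x ∈ w, x < t := by
        intro x hx
        have := hw'.1.mem_iff.mp hx
        simpa using this
      have hne : w ≠ [] := by
        intro h
        have := hw'.1.length_eq
        rw [h] at this
        simp at this
        omega
      have := Ins b μ ν N t w (FFR b n μ ν (n - (t + 1))) hne
        (fun x hx => ⟨hmem x hx, fun hxt => absurd (hb (by simp only [Set.mem_Iio]; have := hmem x hx; omega)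
          (by simp only [Set.mem_Iio]; omega) hxt) (by have := hmem x hx; omega),
          hN x (by have := hmem x hx; omega)⟩) (hN t (by omega)) hw'.2
      rw [this]
      have hd : n - t = (n - (t + 1)) + 1 := by omega
      rw [hd, FFR]
      have ht' : n - (n - (t + 1) + 1) = t := by omega
      rw [ht']
  have h := key n hn le_rfl
  rw [← h]
  apply Finset.sum_congr rfl
  intro w _
  rw [Nat.sub_self, FFR, mul_one]

end Pool.Agent.Helper13.PS
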