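import Pool.Agent.Helper13.PS.D6
import Pool.Agent.Helper13.PS.E2

/-!
# PS: the multivariate identity, and the numbers of linear extensions as coefficients
-/

set_option autoImplicit false

namespace Pool.Agent.Helper13.PS

open MvPolynomial
open Pool.Agent.Helper51.PE (Tok Alg has cut wt key tle pr mon phi phiL V cc0 yt xt leb gt StBot StUp
  StVan StEqv StPos StULC StLorV StCont)
open Pool.Agent.Helper50.PE (exts nd)

private theorem fut_E3 (b : ℕ → ℕ) (n : ℕ) (μ ν : ℕ → ℝ) : ∀ d : ℕ, d ≤ n →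
    futR b n μ ν d = ∏ u ∈ Finset.Ico (n - d) n,
      ((1 + C (ν u) * X (yt b u)) * (1 + C (μ u) * X (xt b n u))) := by
  intro d
  induction d with
  | zero =>
    intro _
    simp [futR]
  | succ d ih =>
    intro hd
    have h1 : n - (d + 1) < n := by omega
    rw [Finset.prod_eq_prod_Ico_succ_bot h1, futR, ih (by omega)]
    have h2 : n - (d + 1) + 1 = n - d := by omega
    rw [h2]

private theorem prod_E3 (b : ℕ → ℕ) (n N : ℕ) (μ ν : ℕ → ℝ) (hn : 1 ≤ n) (h0 : b 0 < N) :
    prodR (linksR b μ ν N [0]) * futR b n μ ν (n - 1) =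
      ∏ g : Fin n × Bool, (1 + C (wg μ ν g) * X (gt b n N g)) := by
  have hG : (∏ g : Fin n × Bool, (1 + C (wg μ ν g) * X (gt b n N g)) : Alg) =
      ∏ i ∈ Finset.range n, ((1 + C (ν i) * X (if i = 0 then ((b 0, 0) : Tok) else yt b i)) *
        (1 + C (μ i) * X (if i = 0 then ((N, 0) : Tok) else xt b n i))) := by
    rw [Fintype.prod_prod_type, Finset.prod_range]
    refine Finset.prod_congr rfl fun i _ => ?_
    rw [Fintype.prod_bool]
    unfold gt wg
    simp
  rw [hG, Finset.range_eq_Ico, Finset.prod_eq_prod_Ico_succ_bot (by omega : 0 < n),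
    fut_E3 b n μ ν (n - 1) (by omega)]
  have h1 : n - (n - 1) = 1 := by omega
  rw [h1]
  have h2 : ∏ u ∈ Finset.Ico 1 n, ((1 + C (ν u) * X (yt b u)) * (1 + C (μ u) * X (xt b n u)) : Alg) =
      ∏ i ∈ Finset.Ico (0 + 1) n, ((1 + C (ν i) * X (if i = 0 then ((b 0, 0) : Tok) else yt b i)) *
        (1 + C (μ i) * X (if i = 0 then ((N, 0) : Tok) else xt b n i))) := by
    refine Finset.prod_congr rfl fun i hi => ?_
    have : i ≠ 0 := by
      have := (Finset.mem_Ico.1 hi).1
      omega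
    rw [if_neg this, if_neg this]
  rw [← h2]
  have h3 : min N (b 0) = b 0 := by omega
  unfold linksR linksB prodR prodR prodR
  rw [h3]
  simp only [if_true, mul_one]
  ring

private theorem V_mul_C_E3 (b : ℕ → ℕ) (ε : ℝ) (n d : ℕ) (r : ℝ) (p : Alg) :
    V b ε n d (C r * p) = r * V b ε n d p := by
  rw [← smul_eq_C_mul, map_smul, smul_eq_mul]

private theorem V_expand_E3 (b : ℕ → ℕ) (n N : ℕ) (μ ν : ℕ → ℝ) :
    V b 0 n (n - 1) (∏ g : Fin n × Bool, (1 + C (wg μ ν g) * X (gt b n N g))) =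
      ∑ K : Finset (Fin n × Bool), (∏ g ∈ K, wg μ ν g) *
        V b 0 n (n - 1) (∏ g ∈ K, X (gt b n N g)) := by
  rw [Finset.prod_one_add, Finset.powerset_univ, map_sum]
  refine Finset.sum_congr rfl fun K _ => ?_
  rw [Finset.prod_mul_distrib, ← map_prod, V_mul_C_E3]

/-- THE MULTIVARIATE IDENTITY: the generating function of linear extensions, with a variable for
every descent bottom and every ascent bottom, is a token polynomial -/
theorem multi (h4 : StPos) (d1 : StVan) (s2 : StBot) (s3 : StUp) (d4 : StEqv)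
    (b : ℕ → ℕ) (n N : ℕ) (μ ν : ℕ → ℝ) (hn : 1 ≤ n) (hb : Set.InjOn b (Set.Iio n))
    (hN : ∀ v, v < n → b v < N) :
    ∑ w ∈ exts (leb b) (Finset.range n), ww μ ν w =
      ∑ K ∈ (Finset.univ : Finset (Finset (Fin n × Bool))).filter (fun K => K.card = n - 1),
        (∏ g ∈ K, wg μ ν g) * V b 0 n (n - 1) (∏ g ∈ K, X (gt b n N g)) := by
  classical
  have h0 : b 0 < N := hN 0 (by omega)
  rw [Words b μ ν n N hn hb hN, Static d1 s2 s3 d4 b n μ ν hb (n - 1) (by omega) (linksR b μ ν N [0]) (by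
      unfold linksR linksB
      rw [List.pairwise_cons]
      refine ⟨?_, List.pairwise_singleton _ _⟩
      intro a ha
      rw [List.mem_singleton] at ha
      rw [ha]
      exact min_le_left _ _), prod_E3 b n N μ ν hn h0, V_expand_E3, Finset.sum_filter]
  refine Finset.sum_congr rfl fun K _ => ?_
  split_ifs with hK
  · rfl
  · have h5 : (∏ g ∈ K, X (gt b n N g) : Alg) = mon (K.val.map (gt b n N)) := by
      unfold mon
      rw [Multiset.map_map]
      rfl
    rw [h5, (h4 b 0 n (n - 1) (K.val.map (gt b n N))).2.2 (by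
      rw [Multiset.card_map]
      exact hK), mul_zero]

/-- number of descents of a word for the labelling with signs `s` -/
def desS (s : ℕ → Bool) : List ℕ → ℕ
  | [] => 0
  | [_] => 0
  | x :: z :: l => (if x < z then (if s x then 1 else 0) else (if s z then 0 else 1)) +
      desS s (z :: l)

/-- number of linear extensions with `k` descents for the labelling with signs `s` -/
noncomputable def ndS (b : ℕ → ℕ) (s : ℕ → Bool) (n k : ℕ) : ℕ :=
  ((exts (leb b) (Finset.range n)).filter (fun w => desS s w = k)).card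

/-- the tokens which create a descent -/
def AS (s : ℕ → Bool) (n : ℕ) : Finset (Fin n × Bool) :=
  Finset.univ.filter (fun g => g.2 = s g.1.val)

/-- the sum over all `K` of size `n - 1` with `k` elements in `AS` -/
noncomputable def aaS (b : ℕ → ℕ) (s : ℕ → Bool) (ε : ℝ) (n N k : ℕ) : ℝ :=
  ∑ K ∈ (Finset.univ : Finset (Finset (Fin n × Bool))).filter
    (fun K => K.card = n - 1 ∧ (K ∩ AS s n).card = k),
    V b ε n (n - 1) (∏ g ∈ K, X (gt b n N g))

theorem ww_desS (s : ℕ → Bool) (y : ℝ) : ∀ w : List ℕ,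
    ww (fun u => if s u then 1 else y) (fun u => if s u then y else 1) w = y ^ desS s w
  | [] => by simp [ww, desS]
  | [_] => by simp [ww, desS]
  | x :: z :: l => by
    rw [ww, desS, pow_add, ww_desS s y (z :: l)]
    congr 1
    split_ifs <;> simp

theorem prod_wg (s : ℕ → Bool) (y : ℝ) (n : ℕ) (K : Finset (Fin n × Bool)) :
    ∏ g ∈ K, wg (fun u => if s u then 1 else y) (fun u => if s u then y else 1) g =
      y ^ (K ∩ AS s n).card := by
  classical
  unfold AS
  rw [Finset.inter_filter, Finset.inter_univ, Finset.card_filter, ← Finset.prod_pow_eq_pow_sum]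
  refine Finset.prod_congr rfl fun g _ => ?_
  unfold wg
  rcases g with ⟨u, t⟩
  cases t <;> cases h : s u.val <;> simp [h]

theorem ndS_eq (h4 : StPos) (d1 : StVan) (s2 : StBot) (s3 : StUp) (d4 : StEqv)
    (b : ℕ → ℕ) (s : ℕ → Bool) (n N k : ℕ) (hn : 1 ≤ n) (hb : Set.InjOn b (Set.Iio n))
    (hN : ∀ v, v < n → b v < N) : (ndS b s n k : ℝ) = aaS b s 0 n N k := by
  classical
  have key : (∑ w ∈ exts (leb b) (Finset.range n), (Polynomial.X : Polynomial ℝ) ^ desS s w) =
      ∑ K ∈ (Finset.univ : Finset (Finset (Fin n × Bool))).filter (fun K => K.card = n - 1),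
        Polynomial.C (V b 0 n (n - 1) (∏ g ∈ K, X (gt b n N g))) *
          Polynomial.X ^ (K ∩ AS s n).card := by
    refine Polynomial.funext fun y => ?_
    rw [Polynomial.eval_finsetSum, Polynomial.eval_finsetSum]
    have e1 : ∑ w ∈ exts (leb b) (Finset.range n), Polynomial.eval y (Polynomial.X ^ desS s w) =
        ∑ w ∈ exts (leb b) (Finset.range n),
          ww (fun u => if s u then 1 else y) (fun u => if s u then y else 1) w := by
      refine Finset.sum_congr rfl fun w _ => ?_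
      rw [ww_desS]
      simp
    rw [e1, multi h4 d1 s2 s3 d4 b n N _ _ hn hb hN]
    refine Finset.sum_congr rfl fun K _ => ?_
    rw [prod_wg, Polynomial.eval_mul, Polynomial.eval_C, Polynomial.eval_pow, Polynomial.eval_X,
      mul_comm]
  have h6 := congrArg (fun p => Polynomial.coeff p k) key
  simp only [Polynomial.finsetSum_coeff, Polynomial.coeff_X_pow, Polynomial.coeff_C_mul] at h6
  unfold ndS aaS
  rw [Finset.card_filter]
  push_cast
  have h7 : ∑ x ∈ exts (leb b) (Finset.range n), (if desS s x = k then (1 : ℝ) else 0) =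
      ∑ x ∈ exts (leb b) (Finset.range n), (if k = desS s x then (1 : ℝ) else 0) := by
    refine Finset.sum_congr rfl fun x _ => ?_
    simp only [eq_comm]
  rw [h7, h6]
  rw [← Finset.filter_filter, Finset.sum_filter (s := Finset.univ.filter _)]
  refine Finset.sum_congr rfl fun K _ => ?_
  split_ifs with h8 h9 h9
  · rw [mul_one]
  · exact absurd h8.symm h9
  · exact absurd h9.symm h8
  · rw [mul_zero]

private theorem aa_cont_E4 (c7 : StCont) (b : ℕ → ℕ) (s : ℕ → Bool) (n N j : ℕ) :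
    Continuous (fun ε : ℝ => aaS b s ε n N j) := by
  unfold aaS
  exact continuous_finsetSum _ fun K _ => c7 b n (n - 1) _

private theorem pos_E4 (c5 : StULC) (c6 : StLorV) (b : ℕ → ℕ) (s : ℕ → Bool) (n N k : ℕ) (hk : 1 ≤ k)
    (hk2 : k + 1 ≤ n - 1) (ε : ℝ) (h0 : 0 < ε) (h1 : ε ≤ 1) :
    ((k : ℝ) + 1) * (((n - 1 : ℕ) : ℝ) - k + 1) * (aaS b s ε n N (k - 1) * aaS b s ε n N (k + 1)) ≤
    (k : ℝ) * (((n - 1 : ℕ) : ℝ) - k) * (aaS b s ε n N k) ^ 2 := by
  have hL := c6 (Fin n × Bool) b ε n (n - 1) (gt b n N) h0 h1 (Nat.sub_le _ _)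
  have hcard : n - 1 ≤ Fintype.card (Fin n × Bool) := by
    rw [Fintype.card_prod, Fintype.card_fin, Fintype.card_bool]
    omega
  have h := c5 (Fin n × Bool) (n - 1) k _ (AS s n) hcard hk hk2 hL
  exact h

private theorem zero_E4 (c5 : StULC) (c6 : StLorV) (c7 : StCont) (b : ℕ → ℕ) (s : ℕ → Bool)
    (n N k : ℕ) (hk : 1 ≤ k) (hk2 : k + 1 ≤ n - 1) :
    ((k : ℝ) + 1) * (((n - 1 : ℕ) : ℝ) - k + 1) * (aaS b s 0 n N (k - 1) * aaS b s 0 n N (k + 1)) ≤
    (k : ℝ) * (((n - 1 : ℕ) : ℝ) - k) * (aaS b s 0 n N k) ^ 2 := by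
  have hc1 : Continuous (fun ε : ℝ => ((k : ℝ) + 1) * (((n - 1 : ℕ) : ℝ) - k + 1) *
      (aaS b s ε n N (k - 1) * aaS b s ε n N (k + 1))) :=
    continuous_const.mul ((aa_cont_E4 c7 b s n N (k - 1)).mul (aa_cont_E4 c7 b s n N (k + 1)))
  have hc2 : Continuous (fun ε : ℝ => (k : ℝ) * (((n - 1 : ℕ) : ℝ) - k) * (aaS b s ε n N k) ^ 2) :=
    continuous_const.mul ((aa_cont_E4 c7 b s n N k).pow 2)
  refine le_of_tendsto_of_tendsto (b := nhdsWithin (0 : ℝ) (Set.Ioi 0))
    ((hc1.tendsto 0).mono_left nhdsWithin_le_nhds) ((hc2.tendsto 0).mono_left nhdsWithin_le_nhds) ?_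
  filter_upwards [Ioc_mem_nhdsGT (zero_lt_one : (0 : ℝ) < 1)] with ε hε
  exact pos_E4 c5 c6 b s n N k hk hk2 ε hε.1 hε.2

theorem desS_le (s : ℕ → Bool) : ∀ w : List ℕ, desS s w ≤ w.length - 1
  | [] => by simp [desS]
  | [_] => by simp [desS]
  | x :: z :: l => by
    have h := desS_le s (z :: l)
    rw [desS]
    simp only [List.length_cons] at h ⊢
    split_ifs <;> omega

/-- ultra-log-concavity for the labelling with signs `s` -/
theorem mainS (h4 : StPos) (d1 : StVan) (s2 : StBot) (s3 : StUp) (d4 : StEqv)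
    (c5 : StULC) (c6 : StLorV) (c7 : StCont) (b : ℕ → ℕ) (s : ℕ → Bool) (n k : ℕ) (hn : 1 ≤ n)
    (hb : Set.InjOn b (Set.Iio n)) (hk : 1 ≤ k) :
    (k + 1) * (n - k) * (ndS b s n (k - 1) * ndS b s n (k + 1)) ≤
      k * (n - 1 - k) * (ndS b s n k) ^ 2 := by
  by_cases hkn : n ≤ k + 1
  · have h0 : ndS b s n (k + 1) = 0 := by
      unfold ndS
      rw [Finset.card_eq_zero]
      apply Finset.filter_eq_empty_iff.2
      intro w hw h
      have h1 := ((mem_exts_range _ _ _).1 hw).1.length_eq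
      rw [List.length_range] at h1
      have h2 := desS_le s w
      omega
    rw [h0, mul_zero, mul_zero]
    exact Nat.zero_le _
  · push Not at hkn
    have hk2 : k + 1 ≤ n - 1 := by omega
    have hN : ∀ v, v < n → b v < 1 + (Finset.range n).sup b := by
      intro v hv
      have : b v ≤ (Finset.range n).sup b := Finset.le_sup (f := b) (Finset.mem_range.2 hv)
      omega
    have h := zero_E4 c5 c6 c7 b s n (1 + (Finset.range n).sup b) k hk hk2
    rw [← ndS_eq h4 d1 s2 s3 d4 b s n _ (k - 1) hn hb hN,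
      ← ndS_eq h4 d1 s2 s3 d4 b s n _ (k + 1) hn hb hN,
      ← ndS_eq h4 d1 s2 s3 d4 b s n _ k hn hb hN] at h
    have e1 : (((n - 1 : ℕ) : ℝ) - k + 1) = ((n - k : ℕ) : ℝ) := by
      rw [Nat.cast_sub (by omega), Nat.cast_sub (by omega)]
      push_cast; ring
    have e2 : (((n - 1 : ℕ) : ℝ) - k) = ((n - 1 - k : ℕ) : ℝ) := by
      rw [Nat.cast_sub (by omega : k ≤ n - 1)]
    rw [e1, e2] at h
    exact_mod_cast h

end Pool.Agent.Helper13.PS
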