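import Pool.Agent.Helper13.PS.FinalA
import Pool.Agent.Helper92.PS.M_QB

/-!
# Project PS: assembly
-/

set_option autoImplicit false

namespace Pool.Agent.Helper13.PS

theorem pQG : StQG := final Pool.Agent.Helper92.PS.hQB

end Pool.Agent.Helper13.PS
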