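import Pool.Agent.Helper76.ND.Final
import Pool.Agent.Helper84.PS.M_PA
import Pool.Agent.Helper42.PS3.M_PB
import Pool.Agent.Helper62.PS.M_PC
import Pool.Agent.Helper2.PS.M_Je
import Pool.Agent.Helper42.PS3.M_PD
import Pool.Agent.Helper76.PS.M_PE
import Pool.Agent.Helper2.PS.M_PF
import Pool.Agent.Helper42.PS3.M_PG
import Pool.Agent.Helper71.PS.M_PH
import Pool.Agent.Helper48.PS.M_PI
import Pool.Agent.Helper80.PS.M_PJ
import Pool.Agent.Helper22.PS.M_PK
import Pool.Agent.Helper84.PS.M_PL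
import Pool.Agent.Helper28.PS.M_QC
import Pool.Agent.Helper54.PS.M_QA
import Pool.Agent.Helper22.PS.M_QT
import Pool.Agent.Helper54.PS.M_QD
import Pool.Agent.Helper41.PS.M_QF
import Pool.Agent.Helper22.PS.M_QG

/-!
# Project PS: assembly (module `QB` as a hypothesis)
-/

set_option autoImplicit false

namespace Pool.Agent.Helper13.PS

open Pool.Agent.Helper76.ND

theorem pPA : StPA := Pool.Agent.Helper84.PS.hPA pNs pQs
theorem pPB : StPB := Pool.Agent.Helper42.PS3.hPB
theorem pPC : StPC := Pool.Agent.Helper62.PS.hPC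
theorem pJe : StJe := Pool.Agent.Helper2.PS.hJe
theorem pPD : StPD := Pool.Agent.Helper42.PS3.hPD pPA pPB pPC pJe
theorem pPE : StPE := Pool.Agent.Helper76.PS.hPE pCh pQs pPA
theorem pPF : StPF := Pool.Agent.Helper2.PS.hPF pPA pPD pPE
theorem pPG : StPG := Pool.Agent.Helper42.PS3.hPG pPA pPF
theorem pPH : StPH := Pool.Agent.Helper71.PS.hPH pRl pTr
theorem pPI : StPI := Pool.Agent.Helper48.PS.hPI pRl
theorem pPJ : StPJ := Pool.Agent.Helper80.PS.hPJ pBn
theorem pPK : StPK := Pool.Agent.Helper22.PS.hPK pPG pPH pPI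
theorem pPL : StPL := Pool.Agent.Helper84.PS.hPL pPJ pPK
theorem pQC : StQC := Pool.Agent.Helper28.PS.hQC
theorem pQA : StQA := Pool.Agent.Helper54.PS.hQA pRl pDr
theorem pQT : StQT := Pool.Agent.Helper22.PS.hQT

theorem final (hQB : StPI → StQC → StQA → StQB) : StQG :=
  Pool.Agent.Helper22.PS.hQG (Pool.Agent.Helper41.PS.hQF pPL
    (Pool.Agent.Helper54.PS.hQD (hQB pPI pQC pQA) pQT))

end Pool.Agent.Helper13.PS
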