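import Pool.Agent.Helper13.PS.St2

/-!
# Project PS, module UA
-/

set_option autoImplicit false
namespace Pool.Agent.Helper13.PS.UAx
open Finset Pool.Agent.Helper76.ND Pool.Agent.Helper13.PS

theorem hUA : StUA := by
  have h1 : ∀ s : ℕ, 4 * ∑ a ∈ W s, cc a = s * 4 ^ s := by
    intro s
    induction s with
    | zero => simp [sum_W_zero]
    | succ s ih =>
      rw [sum_W_succ]
      have e1 : ∑ l ∈ W s, cc (false :: l) = ∑ l ∈ W s, cc l := sum_congr rfl fun l _ => by simp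
      have e2 : ∑ l ∈ W s, cc (true :: l) = 4 ^ s + 3 * ∑ l ∈ W s, cc l := by
        have : ∀ l ∈ W s, cc (true :: l) = 2 ^ s + 3 * cc l := by
          intro l hl
          rw [mem_W] at hl
          simp [hl]
        rw [sum_congr rfl this, sum_add_distrib, sum_const, card_W, ← mul_sum, smul_eq_mul]
        congr 1
        rw [← mul_pow]; norm_num
      rw [e1, e2]
      have : 4 * (∑ l ∈ W s, cc l + (4 ^ s + 3 * ∑ l ∈ W s, cc l)) = 4 * (4 * ∑ l ∈ W s, cc l) + 4 * 4 ^ s := by ring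
      rw [this, ih]
      ring
  refine ⟨h1, fun s n => ?_⟩
  rw [← h1 s, mul_assoc]
  refine Nat.mul_le_mul_left 4 ?_
  calc 3 ^ n * ((W s).filter (fun a => 3 ^ n ≤ cc a)).card
      = ∑ _a ∈ (W s).filter (fun a => 3 ^ n ≤ cc a), 3 ^ n := by rw [sum_const, smul_eq_mul, mul_comm]
    _ ≤ ∑ a ∈ (W s).filter (fun a => 3 ^ n ≤ cc a), cc a := sum_le_sum fun a ha => (mem_filter.1 ha).2
    _ ≤ ∑ a ∈ W s, cc a := sum_le_sum_of_subset (filter_subset _ _)

end Pool.Agent.Helper13.PS.UAx
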