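import Pool.Agent.Helper17.ND.M_Rl
import Pool.Agent.Helper17.ND.M_Cy
import Pool.Agent.Helper43.ND.M_Ho
import Pool.Agent.Helper4.ND.M_Bd
import Pool.Agent.Helper39.ND.M_Bn
import Pool.Agent.Helper39.ND.M_Dr
import Pool.Agent.Helper91.ND.M_Yz
import Pool.Agent.Helper43.ND.M_Co
import Pool.Agent.Helper48.PS.M_PI
import Pool.Agent.Helper28.PS.M_QC
import Pool.Agent.Helper22.PS.M_QT
import Pool.Agent.Helper13.PS.M_UA
import Pool.Agent.Helper62.PS.M_UB
import Pool.Agent.Helper80.PS.M_UC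
import Pool.Agent.Helper60.PS.M_UD
import Pool.Agent.Helper72.PS.M_UE
import Pool.Agent.Helper84.PS.M_UF
import Pool.Agent.Helper48.PS.M_UG
import Pool.Agent.Helper28.PS.M_UH
import Pool.Agent.Helper16.PS.M_UI
import Pool.Agent.Helper90.PS.M_UJ

/-!
# Project PS, part 2: assembly of the uniform version
-/

set_option autoImplicit false

namespace Pool.Agent.Helper13.PS.U

open Pool.Agent.Helper76.ND Pool.Agent.Helper13.PS

theorem uRl : StRl := Pool.Agent.Helper17.ND.hRl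
theorem uCy : StCy := Pool.Agent.Helper17.ND.hCy uRl
theorem uHo : StHo := Pool.Agent.Helper43.ND.hHo
theorem uBd : StBd := Pool.Agent.Helper4.ND.hBd uHo
theorem uBn : StBn := Pool.Agent.Helper39.ND.hBn uCy uBd
theorem uDr : StDr := Pool.Agent.Helper39.ND.hDr
theorem uYz : StYz := Pool.Agent.Helper91.ND.hYz
theorem uCo : StCo := Pool.Agent.Helper43.ND.hCo uYz
theorem uPI : StPI := Pool.Agent.Helper48.PS.hPI uRl
theorem uQC : StQC := Pool.Agent.Helper28.PS.hQC
theorem uQT : StQT := Pool.Agent.Helper22.PS.hQT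
theorem uUA : StUA := Pool.Agent.Helper13.PS.UAx.hUA
theorem uUB : StUB := Pool.Agent.Helper62.PS.hUB uCo
theorem uUC : StUC := Pool.Agent.Helper80.PS.hUC uRl uUA uUB
theorem uUD : StUD := Pool.Agent.Helper60.PS.hUD uBn
theorem uUE : StUE := Pool.Agent.Helper72.PS.hUE
theorem uUF : StUF := Pool.Agent.Helper84.PS.hUF uPI uUC uUD uUE
theorem uUG : StUG := Pool.Agent.Helper48.PS.hUG uRl uDr
theorem uUH : StUH := Pool.Agent.Helper28.PS.hUH uPI uQC uUE uUG
theorem uUI : StUI := Pool.Agent.Helper16.PS.hUI uUH uQT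
theorem uUJ : StUJ := Pool.Agent.Helper90.PS.hUJ uUF uUI

end Pool.Agent.Helper13.PS.U
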