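import Pool.Agent.Helper51.PE.All

/-!
# PS: `W` depends only on the signs of the cover relations
-/

set_option autoImplicit false

namespace Pool.Agent.Helper13.PS

open Pool.Agent.Helper16.PEul (IsExt des leN numExt)

/-- `c` covers `a` -/
def cov {n : ℕ} (le : Fin n → Fin n → Prop) (a c : Fin n) : Prop :=
  le a c ∧ a ≠ c ∧ ∀ x, le a x → le x c → x = a ∨ x = c

private lemma sw_lt_E5 {n : ℕ} {u v x y : Fin n} (h : v.val = u.val + 1 ∨ u.val = v.val + 1)
    (h1 : ¬ (x = u ∧ y = v)) (h2 : ¬ (x = v ∧ y = u)) :
    Equiv.swap u v x < Equiv.swap u v y ↔ x < y := by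
  simp only [Equiv.swap_apply_def]
  simp only [Fin.ext_iff] at h1 h2
  split_ifs with a1 a2 a3 a4 a5 a6 a7 a8 <;> simp only [Fin.ext_iff, Fin.lt_def] at * <;> omega

private def adj_E5 {n : ℕ} (i j : Fin n) (σ : Equiv.Perm (Fin n)) : Prop :=
  (σ.symm j).val = (σ.symm i).val + 1 ∨ (σ.symm i).val = (σ.symm j).val + 1

/-- comparable but not a cover: never adjacent in a linear extension -/
private lemma notadj {n : ℕ} (le : Fin n → Fin n → Prop) (i j : Fin n) (hij : le i j)
    (h1 : ¬ cov le i j) (hne : i ≠ j) (σ : Equiv.Perm (Fin n))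
    (hσ : ∀ a b : Fin n, le (σ a) (σ b) → σ a ≠ σ b → a < b) : ¬ adj_E5 i j σ := by
  have h2 : ∃ x, le i x ∧ le x j ∧ x ≠ i ∧ x ≠ j := by
    by_contra hcon
    push Not at hcon
    apply h1
    refine ⟨hij, hne, ?_⟩
    intro x hx hxj
    by_cases hxi : x = i
    · exact Or.inl hxi
    · exact Or.inr (hcon x hx hxj hxi)
  obtain ⟨x, hx1, hx2, hx3, hx4⟩ := h2
  have a1 := hσ (σ.symm i) (σ.symm x) (by simpa using hx1) (by simpa using fun h => hx3 h.symm)
  have a2 := hσ (σ.symm x) (σ.symm j) (by simpa using hx2) (by simpa using hx4)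
  unfold adj_E5
  rw [Fin.lt_def] at a1 a2
  omega

/-- exchanging two consecutive labels which do not form a cover relation -/
theorem swap_cov (n : ℕ) (le : Fin n → Fin n → Prop) (i j : Fin n) (hij : j.val = i.val + 1)
    (h1 : ¬ cov le i j) (h2 : ¬ cov le j i) (k : ℕ) :
    numExt le k = numExt (fun a c => le (Equiv.swap i j a) (Equiv.swap i j c)) k := by
  classical
  have hne : i ≠ j := by
    rintro rfl
    omega
  by_cases hc : ¬ le i j ∧ ¬ le j i
  · exact Pool.Agent.Helper51.PE.pf_Swap n le i j hij hc.1 hc.2 k
  · -- comparable, not a cover: `i` and `j` are never adjacent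
    have hadj : ∀ σ : Equiv.Perm (Fin n), (∀ a b : Fin n, le (σ a) (σ b) → σ a ≠ σ b → a < b) →
        ¬ adj_E5 i j σ := by
      intro σ hσ
      by_cases h3 : le i j
      · exact notadj le i j h3 h1 hne σ hσ
      · have h4 : le j i := by
          by_contra h4
          exact hc ⟨h3, h4⟩
        have h5 := notadj le j i h4 h2 (Ne.symm hne) σ hσ
        unfold adj_E5 at h5 ⊢
        tauto
    unfold numExt
    refine Finset.card_bij' (fun σ _ => σ.trans (Equiv.swap i j)) (fun σ _ => σ.trans (Equiv.swap i j))
      ?_ ?_ ?_ ?_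
    · intro σ hσ
      rw [Finset.mem_filter] at hσ ⊢
      refine ⟨Finset.mem_univ _, ?_, ?_⟩
      · intro a b hab hne'
        simp only [Equiv.trans_apply, Equiv.swap_apply_self, ne_eq, EmbeddingLike.apply_eq_iff_eq] at hab hne'
        exact hσ.2.1 a b hab (fun h => hne' (σ.injective h))
      · rw [← hσ.2.2]
        congr 1
        apply Finset.filter_congr
        intro p _
        refine and_congr_right fun hp => ?_
        have h := hadj σ hσ.2.1
        show Equiv.swap i j (σ p.2) < Equiv.swap i j (σ p.1) ↔ σ p.2 < σ p.1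
        rw [sw_lt_E5 (Or.inl hij)]
        · rintro ⟨ha, hb⟩
          apply h
          right
          rw [← ha, ← hb]
          simpa using hp
        · rintro ⟨ha, hb⟩
          apply h
          left
          rw [← ha, ← hb]
          simpa using hp
    · intro σ hσ
      rw [Finset.mem_filter] at hσ ⊢
      have hσ1 : ∀ a b : Fin n, le ((σ.trans (Equiv.swap i j)) a) ((σ.trans (Equiv.swap i j)) b) →
          (σ.trans (Equiv.swap i j)) a ≠ (σ.trans (Equiv.swap i j)) b → a < b := by
        intro a b hab hne'
        exact hσ.2.1 a b hab (fun h => hne' (congrArg (Equiv.swap i j) h))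
      refine ⟨Finset.mem_univ _, hσ1, ?_⟩
      rw [← hσ.2.2]
      congr 1
      apply Finset.filter_congr
      intro p _
      refine and_congr_right fun hp => ?_
      have h := hadj _ hσ1
      show Equiv.swap i j (σ p.2) < Equiv.swap i j (σ p.1) ↔ σ p.2 < σ p.1
      rw [sw_lt_E5 (Or.inl hij)]
      · rintro ⟨ha, hb⟩
        apply h
        left
        rw [Equiv.symm_trans_apply, Equiv.symm_trans_apply, Equiv.symm_swap, Equiv.swap_apply_left,
          Equiv.swap_apply_right, ← ha, ← hb]
        simpa using hp
      · rintro ⟨ha, hb⟩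
        apply h
        right
        rw [Equiv.symm_trans_apply, Equiv.symm_trans_apply, Equiv.symm_swap, Equiv.swap_apply_left,
          Equiv.swap_apply_right, ← ha, ← hb]
        simpa using hp
    · intro σ _
      ext x
      simp
    · intro σ _
      ext x
      simp

/-- a permutation without a descent is the identity -/
private theorem exists_desc_E6 {n : ℕ} (π : Equiv.Perm (Fin n)) (hπ : π ≠ 1) :
    ∃ i j : Fin n, j.val = i.val + 1 ∧ π j < π i := by
  by_contra hcon
  push Not at hcon
  apply hπ
  have hmono : StrictMono π := by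
    cases n with
    | zero => intro a; exact a.elim0
    | succ m =>
      rw [Fin.strictMono_iff_lt_succ]
      intro i
      refine lt_of_le_of_ne (hcon i.castSucc i.succ (by simp)) ?_
      intro h
      have h2 := π.injective h
      have h3 := congrArg Fin.val h2
      simp at h3
  have h1 : hmono.orderIsoOfSurjective π π.surjective = OrderIso.refl (Fin n) := Subsingleton.elim _ _
  ext a
  have h2 := congrArg (fun e : Fin n ≃o Fin n => (e a).val) h1
  simpa using h2

/-- the measure of the induction -/
private def mu_E6 {n : ℕ} (π : Equiv.Perm (Fin n)) : ℕ := ∑ a : Fin n, (n - a.val) * (π a).val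

/-- the measure decreases -/
private theorem mu_lt_E6 {n : ℕ} (π : Equiv.Perm (Fin n)) (i j : Fin n) (hij : j.val = i.val + 1)
    (h : π j < π i) : mu_E6 (π * Equiv.swap i j) < mu_E6 π := by
  have hne : i ≠ j := by
    intro h'
    rw [h'] at hij
    omega
  unfold mu_E6
  have e1 : ∀ f : Fin n → ℕ, ∑ a, f a = f i + (f j + ∑ a ∈ (Finset.univ.erase i).erase j, f a) := by
    intro f
    rw [Finset.add_sum_erase _ _ (by simp [Ne.symm hne]), Finset.add_sum_erase _ _ (by simp)]
  rw [e1, e1 (fun a => (n - a.val) * (π a).val)]
  have e2 : ∑ a ∈ (Finset.univ.erase i).erase j, (n - a.val) * ((π * Equiv.swap i j) a).val =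
      ∑ a ∈ (Finset.univ.erase i).erase j, (n - a.val) * (π a).val := by
    apply Finset.sum_congr rfl
    intro a ha
    simp only [Finset.mem_erase, Finset.mem_univ, and_true] at ha
    rw [Equiv.Perm.mul_apply, Equiv.swap_apply_of_ne_of_ne ha.2 ha.1]
  rw [e2]
  simp only [Equiv.Perm.mul_apply, Equiv.swap_apply_left, Equiv.swap_apply_right]
  have hj := j.isLt
  obtain ⟨u, hu⟩ : ∃ u, n - j.val = u := ⟨_, rfl⟩
  have hu' : n - i.val = u + 1 := by omega
  rw [hu, hu']
  have h' : (π j).val < (π i).val := h
  nlinarith

private theorem sw_inv {n : ℕ} (i j x y : Fin n) :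
    Equiv.swap i j x = y ↔ x = Equiv.swap i j y := by
  constructor
  · intro h
    rw [← h, Equiv.swap_apply_self]
  · intro h
    rw [h, Equiv.swap_apply_self]

/-- `W` depends only on the signs of the cover relations: `π` is another labelling which has the
same sign on every cover relation -/
theorem nat_cov (n : ℕ) (le : Fin n → Fin n → Prop) (π : Equiv.Perm (Fin n))
    (h : ∀ a c, cov le a c → (a < c ↔ π a < π c)) (k : ℕ) :
    numExt le k = numExt (fun a c => le (π.symm a) (π.symm c)) k := by
  obtain ⟨N, hN⟩ : ∃ N, mu_E6 π = N := ⟨_, rfl⟩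
  induction N using Nat.strong_induction_on generalizing le π with
  | _ N ih =>
    by_cases hπ : π = 1
    · rw [hπ]
      rfl
    · obtain ⟨i, j, hij, hlt⟩ := exists_desc_E6 π hπ
      have hilt : i < j := by
        rw [Fin.lt_def]
        omega
      have hnij : ¬ cov le i j := fun h' => absurd ((h i j h').1 hilt) (not_lt.2 hlt.le)
      have hnji : ¬ cov le j i := fun h' => absurd ((h j i h').2 hlt) (not_lt.2 hilt.le)
      rw [swap_cov n le i j hij hnij hnji k]
      have key := ih (mu_E6 (π * Equiv.swap i j)) (hN ▸ mu_lt_E6 π i j hij hlt)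
        (fun a c => le (Equiv.swap i j a) (Equiv.swap i j c)) (π * Equiv.swap i j) ?_ rfl
      · rw [key]
        congr 1
        funext a c
        simp [← Equiv.Perm.inv_def]
      · intro a c hac
        have hac' : cov le (Equiv.swap i j a) (Equiv.swap i j c) := by
          refine ⟨hac.1, fun h' => hac.2.1 ((Equiv.swap i j).injective h'), ?_⟩
          intro x hx1 hx2
          have h3 := hac.2.2 (Equiv.swap i j x) (by simpa using hx1) (by simpa using hx2)
          rcases h3 with h3 | h3
          · left
            exact (sw_inv i j x a).1 h3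
          · right
            exact (sw_inv i j x c).1 h3
        have h4 := h _ _ hac'
        rw [Equiv.Perm.mul_apply, Equiv.Perm.mul_apply, ← h4]
        rw [sw_lt_E5 (Or.inl hij)]
        · rintro ⟨rfl, rfl⟩
          apply hnji
          simpa using hac'
        · rintro ⟨rfl, rfl⟩
          apply hnij
          simpa using hac'

/-- the dual poset -/
theorem dual_numExt (n : ℕ) (le : Fin n → Fin n → Prop) (k : ℕ) :
    numExt le k = numExt (fun a c => le (Fin.rev c) (Fin.rev a)) k := by
  classical
  unfold numExt
  refine Finset.card_bij' (fun σ _ => (Fin.revPerm.trans σ).trans Fin.revPerm)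
    (fun σ _ => (Fin.revPerm.trans σ).trans Fin.revPerm) ?_ ?_ ?_ ?_
  · intro σ hσ
    rw [Finset.mem_filter] at hσ ⊢
    refine ⟨Finset.mem_univ _, ?_, ?_⟩
    · intro a b hab hne
      simp only [Equiv.trans_apply, Fin.revPerm_apply, Fin.rev_rev] at hab hne
      have h1 := hσ.2.1 (Fin.rev b) (Fin.rev a) hab (fun h => hne (by rw [h]))
      exact Fin.rev_lt_rev.1 h1
    · rw [← hσ.2.2]
      refine Finset.card_bij' (fun p _ => (Fin.rev p.2, Fin.rev p.1)) (fun p _ => (Fin.rev p.2, Fin.rev p.1))
        ?_ ?_ ?_ ?_
      · intro p hp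
        rw [Finset.mem_filter] at hp ⊢
        refine ⟨Finset.mem_univ _, ?_, ?_⟩
        · have h1 := hp.2.1
          simp only [Fin.val_rev]
          have := p.1.isLt
          have := p.2.isLt
          omega
        · have h2 := hp.2.2
          simp only [Equiv.trans_apply, Fin.revPerm_apply, Fin.rev_lt_rev] at h2
          exact h2
      · intro p hp
        rw [Finset.mem_filter] at hp ⊢
        refine ⟨Finset.mem_univ _, ?_, ?_⟩
        · have h1 := hp.2.1
          simp only [Fin.val_rev]
          have := p.1.isLt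
          have := p.2.isLt
          omega
        · have h2 := hp.2.2
          simp only [Equiv.trans_apply, Fin.revPerm_apply, Fin.rev_lt_rev, Fin.rev_rev]
          exact h2
      · intro p _
        simp
      · intro p _
        simp
  · intro σ hσ
    rw [Finset.mem_filter] at hσ ⊢
    refine ⟨Finset.mem_univ _, ?_, ?_⟩
    · intro a b hab hne
      simp only [Equiv.trans_apply, Fin.revPerm_apply] at hab hne
      have h1 := hσ.2.1 (Fin.rev b) (Fin.rev a) hab (fun h => hne (by rw [h]))
      exact Fin.rev_lt_rev.1 h1
    · rw [← hσ.2.2]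
      refine Finset.card_bij' (fun p _ => (Fin.rev p.2, Fin.rev p.1)) (fun p _ => (Fin.rev p.2, Fin.rev p.1))
        ?_ ?_ ?_ ?_
      · intro p hp
        rw [Finset.mem_filter] at hp ⊢
        refine ⟨Finset.mem_univ _, ?_, ?_⟩
        · have h1 := hp.2.1
          simp only [Fin.val_rev]
          have := p.1.isLt
          have := p.2.isLt
          omega
        · have h2 := hp.2.2
          simp only [Equiv.trans_apply, Fin.revPerm_apply, Fin.rev_lt_rev] at h2
          exact h2
      · intro p hp
        rw [Finset.mem_filter] at hp ⊢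
        refine ⟨Finset.mem_univ _, ?_, ?_⟩
        · have h1 := hp.2.1
          simp only [Fin.val_rev]
          have := p.1.isLt
          have := p.2.isLt
          omega
        · have h2 := hp.2.2
          simp only [Equiv.trans_apply, Fin.revPerm_apply, Fin.rev_lt_rev, Fin.rev_rev]
          exact h2
      · intro p _
        simp
      · intro p _
        simp
  · intro σ _
    ext x
    simp
  · intro σ _
    ext x
    simp

end Pool.Agent.Helper13.PS
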