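import Pool.Agent.Helper13.PS.E3
import Pool.Agent.Helper13.PS.Swap

/-!
# PS: labels given by signs, and the final statement
-/

set_option autoImplicit false

namespace Pool.Agent.Helper13.PS

open Pool.Agent.Helper51.PE (leb StBot StUp StVan StEqv StPos StULC StLorV StCont StCoord)
open Pool.Agent.Helper50.PE (exts nd)
open Pool.Agent.Helper16.PEul (IsExt des leN numExt)

private theorem rank_E7 (n : ℕ) (l : Fin n → Fin n → Prop) (hr : ∀ a, l a a)
    (ha : ∀ a b, l a b → l b a → a = b) (ht : ∀ a b c, l a b → l b c → l a c)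
    (htot : ∀ a b, l a b ∨ l b a) : ∃ f : Equiv.Perm (Fin n), ∀ a c, l a c ↔ f a ≤ f c := by
  classical
  set S : Fin n → Finset (Fin n) := fun a => Finset.univ.filter fun x => x ≠ a ∧ l x a with hS
  have hlt : ∀ a, (S a).card < n := by
    intro a
    have h1 : S a ⊆ Finset.univ.erase a := by
      intro x hx
      rw [hS, Finset.mem_filter] at hx
      exact Finset.mem_erase.2 ⟨hx.2.1, Finset.mem_univ _⟩
    have h2 := Finset.card_le_card h1
    rw [Finset.card_erase_of_mem (Finset.mem_univ _), Finset.card_univ, Fintype.card_fin] at h2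
    have h3 := a.isLt
    omega
  have hsub : ∀ a c, l a c → S a ⊆ S c := by
    intro a c hac x hx
    rw [hS, Finset.mem_filter] at hx ⊢
    refine ⟨Finset.mem_univ _, ?_, ht _ _ _ hx.2.2 hac⟩
    rintro rfl
    exact hx.2.1 (ha _ _ hx.2.2 hac)
  have hstrict : ∀ a c, l a c → a ≠ c → (S a).card < (S c).card := by
    intro a c hac hne
    refine Finset.card_lt_card ⟨hsub a c hac, fun h => ?_⟩
    have h1 : a ∈ S c := by
      rw [hS, Finset.mem_filter]
      exact ⟨Finset.mem_univ _, hne, hac⟩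
    have h2 := h h1
    rw [hS, Finset.mem_filter] at h2
    exact h2.2.1 rfl
  set f : Fin n → Fin n := fun a => ⟨(S a).card, hlt a⟩ with hf
  have hinj : Function.Injective f := by
    intro a c hac
    by_contra hne
    have h1 : (S a).card = (S c).card := congrArg Fin.val hac
    rcases htot a c with h | h
    · have := hstrict a c h hne
      omega
    · have := hstrict c a h (Ne.symm hne)
      omega
  refine ⟨Equiv.ofBijective f (Finite.injective_iff_bijective.1 hinj), fun a c => ?_⟩
  rw [Equiv.ofBijective_apply, Equiv.ofBijective_apply]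
  constructor
  · intro h
    exact Finset.card_le_card (hsub a c h)
  · intro h
    rcases htot a c with h1 | h1
    · exact h1
    · by_cases hne : a = c
      · rw [hne]
        exact hr c
      · have h2 := hstrict c a h1 (Ne.symm hne)
        have h3 : (S a).card ≤ (S c).card := h
        omega

/-- the labelling given by signs: `a` gets a smaller label than all later elements if `s a`, and a
larger label than all later elements otherwise -/
theorem rankS (n : ℕ) (s : ℕ → Bool) : ∃ f : Equiv.Perm (Fin n), ∀ a c : Fin n,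
    (f a < f c ↔ (a < c ∧ s a.val = true) ∨ (c < a ∧ s c.val = false)) := by
  have hr : ∀ a : Fin n, a = a ∨ (a < a ∧ s a.val = true) ∨ (a < a ∧ s a.val = false) :=
    fun a => Or.inl rfl
  have ha : ∀ a b : Fin n, (a = b ∨ (a < b ∧ s a.val = true) ∨ (b < a ∧ s b.val = false)) →
      (b = a ∨ (b < a ∧ s b.val = true) ∨ (a < b ∧ s a.val = false)) → a = b := by
    intro a b h1 h2
    by_contra hne
    have h3 : b ≠ a := fun h => hne h.symm
    rcases h1 with h1 | ⟨h1, h4⟩ | ⟨h1, h4⟩
    · exact hne h1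
    · rcases h2 with h2 | ⟨h2, h5⟩ | ⟨h2, h5⟩
      · exact h3 h2
      · exact absurd h1 (not_lt.2 h2.le)
      · rw [h4] at h5
        exact absurd h5 (by simp)
    · rcases h2 with h2 | ⟨h2, h5⟩ | ⟨h2, h5⟩
      · exact h3 h2
      · rw [h4] at h5
        exact absurd h5 (by simp)
      · exact absurd h1 (not_lt.2 h2.le)
  have ht : ∀ a b c : Fin n, (a = b ∨ (a < b ∧ s a.val = true) ∨ (b < a ∧ s b.val = false)) →
      (b = c ∨ (b < c ∧ s b.val = true) ∨ (c < b ∧ s c.val = false)) →
      (a = c ∨ (a < c ∧ s a.val = true) ∨ (c < a ∧ s c.val = false)) := by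
    intro a b c h1 h2
    rcases h1 with rfl | ⟨h1, h4⟩ | ⟨h1, h4⟩
    · exact h2
    · rcases h2 with rfl | ⟨h2, h5⟩ | ⟨h2, h5⟩
      · exact Or.inr (Or.inl ⟨h1, h4⟩)
      · exact Or.inr (Or.inl ⟨h1.trans h2, h4⟩)
      · rcases lt_trichotomy a c with h6 | h6 | h6
        · exact Or.inr (Or.inl ⟨h6, h4⟩)
        · exact Or.inl h6
        · exact Or.inr (Or.inr ⟨h6, h5⟩)
    · rcases h2 with rfl | ⟨h2, h5⟩ | ⟨h2, h5⟩
      · exact Or.inr (Or.inr ⟨h1, h4⟩)
      · rw [h4] at h5
        exact absurd h5 (by simp)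
      · exact Or.inr (Or.inr ⟨h2.trans h1, h5⟩)
  have htot : ∀ a b : Fin n, (a = b ∨ (a < b ∧ s a.val = true) ∨ (b < a ∧ s b.val = false)) ∨
      (b = a ∨ (b < a ∧ s b.val = true) ∨ (a < b ∧ s a.val = false)) := by
    intro a b
    rcases lt_trichotomy a b with h | h | h
    · cases hs : s a.val
      · exact Or.inr (Or.inr (Or.inr ⟨h, rfl⟩))
      · exact Or.inl (Or.inr (Or.inl ⟨h, rfl⟩))
    · exact Or.inl (Or.inl h)
    · cases hs : s b.val
      · exact Or.inl (Or.inr (Or.inr ⟨h, rfl⟩))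
      · exact Or.inr (Or.inr (Or.inl ⟨h, rfl⟩))
  obtain ⟨f, hf⟩ := rank_E7 n
    (fun a c => a = c ∨ (a < c ∧ s a.val = true) ∨ (c < a ∧ s c.val = false)) hr ha ht htot
  refine ⟨f, fun a c => ?_⟩
  have h1 := hf c a
  rw [← not_le, ← h1]
  have h2 : a < c ∨ a = c ∨ c < a := lt_trichotomy a c
  rcases h2 with h2 | h2 | h2
  · have h3 : c ≠ a := ne_of_gt h2
    have h4 : ¬ c < a := not_lt.2 h2.le
    simp only [h3, h2, h4, false_and, true_and, false_or, or_false]
    cases s a.val <;> simp
  · subst h2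
    simp
  · have h3 : c ≠ a := ne_of_lt h2
    have h4 : ¬ a < c := not_lt.2 h2.le
    simp only [h3, h2, h4, false_and, true_and, false_or, or_false]
    cases s c.val <;> simp

/-- a permutation of `Fin n` as a function on natural numbers -/
private noncomputable def ex {n : ℕ} (f : Equiv.Perm (Fin n)) (u : ℕ) : ℕ :=
  if h : u < n then (f ⟨u, h⟩).val else u

private theorem ex_val {n : ℕ} (f : Equiv.Perm (Fin n)) (u : Fin n) : ex f u.val = (f u).val := by
  unfold ex
  rw [dif_pos u.isLt]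

private theorem ex_lt {n : ℕ} (f : Equiv.Perm (Fin n)) {u : ℕ} (h : u < n) : ex f u < n := by
  have := ex_val f ⟨u, h⟩
  simp only at this
  rw [this]
  exact (f ⟨u, h⟩).isLt

private theorem ex_ex {n : ℕ} (f : Equiv.Perm (Fin n)) {u : ℕ} (h : u < n) : ex f.symm (ex f u) = u := by
  have h1 := ex_val f ⟨u, h⟩
  simp only at h1
  rw [h1, ex_val f.symm, Equiv.symm_apply_apply]

private theorem perm_map {n : ℕ} (f : Equiv.Perm (Fin n)) (w : List ℕ) (hw : w.Perm (List.range n)) :
    (w.map (ex f)).Perm (List.range n) := by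
  refine (hw.map (ex f)).trans ?_
  have hinj : ∀ x ∈ List.range n, ∀ y ∈ List.range n, ex f x = ex f y → x = y := by
    intro x hx y hy hxy
    rw [List.mem_range] at hx hy
    rw [← ex_ex f hx, ← ex_ex f hy, hxy]
  have hnd : ((List.range n).map (ex f)).Nodup :=
    (List.nodup_map_iff_inj_on List.nodup_range).2 hinj
  rw [List.perm_ext_iff_of_nodup hnd List.nodup_range]
  intro a
  rw [List.mem_map, List.mem_range]
  constructor
  · rintro ⟨x, hx, rfl⟩
    exact ex_lt f (List.mem_range.1 hx)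
  · intro ha
    refine ⟨ex f.symm a, List.mem_range.2 (ex_lt f.symm ha), ?_⟩
    have := ex_ex f.symm ha
    rwa [Equiv.symm_symm] at this

private theorem des_map {n : ℕ} (s : ℕ → Bool) (f : Equiv.Perm (Fin n))
    (hf : ∀ a c : Fin n, (f a < f c ↔ (a < c ∧ s a.val = true) ∨ (c < a ∧ s c.val = false))) :
    ∀ w : List ℕ, w.Nodup → (∀ x ∈ w, x < n) → des (w.map (ex f)) = desS s w
  | [], _, _ => by simp [des, desS]
  | [_], _, _ => by simp [des, desS]
  | x :: z :: l, hnd, hlt => by
    have ih := des_map s f hf (z :: l) (List.nodup_cons.1 hnd).2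
      (fun y hy => hlt y (List.mem_cons_of_mem _ hy))
    have hx : x < n := hlt x (by simp)
    have hz : z < n := hlt z (by simp)
    have hxz : x ≠ z := by
      rintro rfl
      exact (List.nodup_cons.1 hnd).1 (by simp)
    rw [List.map_cons, List.map_cons, des, desS]
    rw [List.map_cons] at ih
    rw [ih]
    congr 1
    have h1 := hf ⟨x, hx⟩ ⟨z, hz⟩
    have h2 : ex f x < ex f z ↔ f ⟨x, hx⟩ < f ⟨z, hz⟩ := by
      have e1 := ex_val f ⟨x, hx⟩
      have e2 := ex_val f ⟨z, hz⟩
      simp only at e1 e2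
      rw [e1, e2, Fin.lt_def]
    rcases lt_or_gt_of_ne hxz with h3 | h3
    · rw [if_pos h3]
      have h4 : ¬ z < x := not_lt.2 h3.le
      have h5 : ex f x < ex f z ↔ s x = true := by
        rw [h2, h1]
        simp only [Fin.mk_lt_mk, h3, h4, true_and, false_and, or_false]
      by_cases h6 : s x = true
      · rw [if_pos (h5.2 h6), if_pos h6]
      · rw [if_neg (fun h => h6 (h5.1 h)), if_neg h6]
    · have h4 : ¬ x < z := not_lt.2 (le_of_lt h3)
      rw [if_neg h4]
      have h5 : ex f x < ex f z ↔ s z = false := by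
        rw [h2, h1]
        simp only [Fin.mk_lt_mk, h4, false_and, false_or]
        exact ⟨fun h => h.2, fun h => ⟨h3, h⟩⟩
      by_cases h6 : s z = true
      · rw [if_pos h6, if_neg]
        rw [h5, h6]
        simp
      · rw [if_neg h6, if_pos]
        rw [h5]
        simpa using h6

theorem ndS_numExt (n : ℕ) (b : ℕ → ℕ) (s : ℕ → Bool) (f : Equiv.Perm (Fin n))
    (hf : ∀ a c : Fin n, (f a < f c ↔ (a < c ∧ s a.val = true) ∨ (c < a ∧ s c.val = false))) (k : ℕ) :
    numExt (fun a c : Fin n => leb b (f.symm a).val (f.symm c).val) k = ndS b s n k := by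
  classical
  have himg : (Finset.univ : Finset (Fin n)).image Fin.val = Finset.range n := by
    ext x
    simp only [Finset.mem_image, Finset.mem_univ, true_and, Finset.mem_range]
    exact ⟨fun ⟨a, ha⟩ => ha ▸ a.2, fun hx => ⟨⟨x, hx⟩, rfl⟩⟩
  have h1 : (fun a c : Fin n => leb b (f.symm a).val (f.symm c).val) =
      fun a c : Fin n => (fun x z : ℕ => leb b (ex f.symm x) (ex f.symm z)) a.val c.val := by
    funext a c
    simp only [ex_val]
  rw [h1, ← Pool.Agent.Helper14.PE.pf_Relab n (fun x z : ℕ => leb b (ex f.symm x) (ex f.symm z))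
    Fin.val (fun _ _ h => h) k, himg]
  unfold nd ndS
  refine Finset.card_bij' (fun w _ => w.map (ex f.symm)) (fun w _ => w.map (ex f)) ?_ ?_ ?_ ?_
  · intro w hw
    rw [Finset.mem_filter, mem_exts_range] at hw ⊢
    obtain ⟨⟨hp, ho⟩, hd⟩ := hw
    have hp' := perm_map f.symm w hp
    have hlt : ∀ x ∈ w.map (ex f.symm), x < n := fun x hx => List.mem_range.1 (hp'.mem_iff.1 hx)
    have hnd : (w.map (ex f.symm)).Nodup := hp'.nodup_iff.2 List.nodup_range
    refine ⟨⟨hp', ?_⟩, ?_⟩
    · rw [List.pairwise_map]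
      exact ho
    · rw [← des_map s f hf _ hnd hlt, List.map_map, ← hd]
      congr 1
      conv_rhs => rw [← List.map_id w]
      apply List.map_congr_left
      intro x hx
      have hx' : x < n := List.mem_range.1 (hp.mem_iff.1 hx)
      have := ex_ex f.symm hx'
      rw [Equiv.symm_symm] at this
      simp only [Function.comp, this, id]
  · intro w hw
    rw [Finset.mem_filter, mem_exts_range] at hw ⊢
    obtain ⟨⟨hp, ho⟩, hd⟩ := hw
    have hp' := perm_map f w hp
    have hlt : ∀ x ∈ w, x < n := fun x hx => List.mem_range.1 (hp.mem_iff.1 hx)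
    have hnd : w.Nodup := hp.nodup_iff.2 List.nodup_range
    refine ⟨⟨hp', ?_⟩, ?_⟩
    · rw [List.pairwise_map]
      refine ho.imp_of_mem ?_
      intro x z hx hz h
      rw [ex_ex f (hlt x hx), ex_ex f (hlt z hz)]
      exact h
    · rw [des_map s f hf w hnd hlt, hd]
  · intro w hw
    rw [Finset.mem_filter, mem_exts_range] at hw
    rw [List.map_map]
    conv_rhs => rw [← List.map_id w]
    apply List.map_congr_left
    intro x hx
    have hx' : x < n := List.mem_range.1 (hw.1.1.mem_iff.1 hx)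
    have := ex_ex f.symm hx'
    rw [Equiv.symm_symm] at this
    simp only [Function.comp, this, id]
  · intro w hw
    rw [Finset.mem_filter, mem_exts_range] at hw
    rw [List.map_map]
    conv_rhs => rw [← List.map_id w]
    apply List.map_congr_left
    intro x hx
    have hx' : x < n := List.mem_range.1 (hw.1.1.mem_iff.1 hx)
    simp only [Function.comp, ex_ex f hx', id]

/-- the case in which the sign of a cover relation depends on its lower element -/
theorem final_lower (n : ℕ) (hn : 1 ≤ n) (le l1 l2 : Fin n → Fin n → Prop)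
    (h1 : ∀ a, l1 a a) (h2 : ∀ a b, l1 a b → l1 b a → a = b)
    (h3 : ∀ a b c, l1 a b → l1 b c → l1 a c) (h4 : ∀ a b, l1 a b ∨ l1 b a)
    (h5 : ∀ a, l2 a a) (h6 : ∀ a b, l2 a b → l2 b a → a = b)
    (h7 : ∀ a b c, l2 a b → l2 b c → l2 a c) (h8 : ∀ a b, l2 a b ∨ l2 b a)
    (h9 : ∀ a b, le a b ↔ l1 a b ∧ l2 a b) (s : Fin n → Prop)
    (h10 : ∀ a b, cov le a b → (a < b ↔ s a)) (k : ℕ) (hk : 1 ≤ k) :
    (k + 1) * (n - k) * (numExt le (k - 1) * numExt le (k + 1)) ≤
      k * (n - 1 - k) * (numExt le k) ^ 2 := by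
  classical
  obtain ⟨π, b, hb, hπ, hl⟩ := Pool.Agent.Helper51.PE.pf_Coord n le l1 l2 h1 h2 h3 h4 h5 h6 h7 h8 h9
  set sN : ℕ → Bool := fun u => if h : u < n then decide (s (π.symm ⟨u, h⟩)) else true with hsN
  have hs : ∀ u : Fin n, (sN u.val = true ↔ s (π.symm u)) := by
    intro u
    rw [hsN]
    simp only [u.isLt, dif_pos, decide_eq_true_eq]
  obtain ⟨f, hf⟩ := rankS n sN
  have key : ∀ j, numExt le j = ndS b sN n j := by
    intro j
    rw [nat_cov n le (π.trans f) ?_ j, ← ndS_numExt n b sN f hf j]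
    · congr 1
      funext a c
      exact propext (hl (f.symm a) (f.symm c))
    · intro a c hac
      rw [h10 a c hac, Equiv.trans_apply, Equiv.trans_apply, hf]
      have h11 : π a < π c := lt_of_le_of_ne (hπ a c hac.1) (fun h => hac.2.1 (π.injective h))
      have h12 : ¬ π c < π a := not_lt.2 h11.le
      simp only [h11, h12, true_and, false_and, or_false]
      rw [hs, Equiv.symm_apply_apply]
  rw [key, key, key]
  have a1 := Pool.Agent.Helper51.PE.pf_Low
  have a2 := Pool.Agent.Helper51.PE.pf_Bot a1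
  have a3 := Pool.Agent.Helper51.PE.pf_Leib a1
  have a3b := Pool.Agent.Helper51.PE.pf_Up a1 a3
  have a4 := Pool.Agent.Helper51.PE.pf_Pos a1
  have a5 := Pool.Agent.Helper51.PE.pf_Mono a1 a2 a3 a4
  have a6 := Pool.Agent.Helper51.PE.pf_DMono a5
  have b1 := Pool.Agent.Helper51.PE.pf_Psi a1
  have b4 := Pool.Agent.Helper51.PE.pf_Path a4 a6 b1 Pool.Agent.Helper51.PE.pf_RCS
    Pool.Agent.Helper51.PE.pf_Real
  have b5 := Pool.Agent.Helper51.PE.pf_AF b4 a1
  have c2 := Pool.Agent.Helper51.PE.pf_DU Pool.Agent.Helper51.PE.pf_Boch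
  have c3 := Pool.Agent.Helper51.PE.pf_T c2 Pool.Agent.Helper51.PE.pf_RCS
  have c5 := Pool.Agent.Helper51.PE.pf_ULC c3 Pool.Agent.Helper51.PE.pf_Count
  have c6 := Pool.Agent.Helper51.PE.pf_LorV a4 b5
  have c7 := Pool.Agent.Helper51.PE.pf_Cont a1
  have d1 := Pool.Agent.Helper51.PE.pf_Van a1
  have d4 := Pool.Agent.Helper51.PE.pf_Eqv a5
  exact mainS a4 d1 a2 a3b d4 c5 c6 c7 b sN n k hn hb hk

/-- **Final statement**: the sign of a cover relation depends only on its lower element, or only on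
its upper element. -/
theorem finalS (n : ℕ) (hn : 1 ≤ n) (le l1 l2 : Fin n → Fin n → Prop)
    (h1 : ∀ a, l1 a a) (h2 : ∀ a b, l1 a b → l1 b a → a = b)
    (h3 : ∀ a b c, l1 a b → l1 b c → l1 a c) (h4 : ∀ a b, l1 a b ∨ l1 b a)
    (h5 : ∀ a, l2 a a) (h6 : ∀ a b, l2 a b → l2 b a → a = b)
    (h7 : ∀ a b c, l2 a b → l2 b c → l2 a c) (h8 : ∀ a b, l2 a b ∨ l2 b a)
    (h9 : ∀ a b, le a b ↔ l1 a b ∧ l2 a b) (s : Fin n → Prop)
    (h10 : (∀ a b, cov le a b → (a < b ↔ s a)) ∨ (∀ a b, cov le a b → (a < b ↔ s b)))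
    (k : ℕ) (hk : 1 ≤ k) :
    (k + 1) * (n - k) * (numExt le (k - 1) * numExt le (k + 1)) ≤
      k * (n - 1 - k) * (numExt le k) ^ 2 := by
  rcases h10 with h10 | h10
  · exact final_lower n hn le l1 l2 h1 h2 h3 h4 h5 h6 h7 h8 h9 s h10 k hk
  · rw [dual_numExt n le (k - 1), dual_numExt n le (k + 1), dual_numExt n le k]
    refine final_lower n hn (fun a c => le (Fin.rev c) (Fin.rev a)) (fun a c => l1 (Fin.rev c) (Fin.rev a))
      (fun a c => l2 (Fin.rev c) (Fin.rev a)) (fun a => h1 _) ?_ ?_ (fun a b => (h4 _ _)) (fun a => h5 _)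
      ?_ ?_ (fun a b => (h8 _ _)) (fun a b => h9 _ _) (fun a => s (Fin.rev a)) ?_ k hk
    · intro a b h11 h12
      exact Fin.rev_injective (h2 _ _ h12 h11)
    · intro a b c h11 h12
      exact h3 _ _ _ h12 h11
    · intro a b h11 h12
      exact Fin.rev_injective (h6 _ _ h12 h11)
    · intro a b c h11 h12
      exact h7 _ _ _ h12 h11
    · intro a b hab
      have h11 : cov le (Fin.rev b) (Fin.rev a) := by
        refine ⟨hab.1, fun h => hab.2.1 (Fin.rev_injective h.symm), ?_⟩
        intro x hx1 hx2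
        have h12 := hab.2.2 (Fin.rev x) (by simpa using hx2) (by simpa using hx1)
        rcases h12 with h12 | h12
        · right
          rw [← h12, Fin.rev_rev]
        · left
          rw [← h12, Fin.rev_rev]
      have h12 := h10 _ _ h11
      rw [Fin.rev_lt_rev] at h12
      exact h12

end Pool.Agent.Helper13.PS
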