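import Pool.Agent.Helper76.ND.StE

/-!
# Project PS (MP_77ff3d_nt): power saving for the `3x - 1` map

THEOREM.  For every `ε > 0` there are `δ > 0` and `C` such that for all `x` all but `C x^(1-δ)` of the
`n ≤ x` have the following two properties: some trajectory element is `< n^ε`, and
`|log T^k n - (log n - k log(4/3)/3)| ≤ ε log n` for all `k` with `k log(4/3) ≤ 3 log n`.

Definitions and results of project ND (`Pool.Agent.Helper76.ND`, NaturalDensity) are used: words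
`W t`, heads `hd`, constant `cc`, `te`, backward parity word `wd t N`, shortcut map `S`, probabilities
`ns`, `nt`, good words `Gd`, `rho = log(4/3)/2`, and the statements `StNs StTr StQs StCh StRl StBn StDr`
(they are theorems `pNs`, ... of `Pool/Agent/Helper76/ND/Final.lean`; in the modules they are
hypotheses).  `Lib.lean` of ND has the basic lemmas (`sum_W_append`, `cc_append`, `te_append`,
`te_cons`, `hd_append`, `card_hd_te`, `ns_nonneg`, `S_iter_pos`, `wd_length`, `mem_W`).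

Idea.  `P K n` is (a truncation of) the distribution modulo `3^n` of the endpoint of a random path
with `n` odd steps.  Its `L^q` norms are submultiplicative in `n` (`StPD`), and by the mixing theorem
`StCh` they are nearly flat for `q` close to `1` (`StPE`); so small sets have small measure (`StPG`),
the preimage of a small set under `S^[t]` is small (`StPK`), and this can be iterated (`StPL`).
-/

set_option autoImplicit false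

noncomputable section

namespace Pool.Agent.Helper13.PS

open Finset Pool.Agent.Helper76.ND

/-! ## The distribution -/

/-- distribution modulo `3^n` of the endpoint of a path with `n` odd steps (at most `K` steps) -/
def P (K n M : ℕ) : ℝ := ∑ s ∈ range K, ns n n s M

/-- `L^q` norm, to the power `q` -/
def Sq (K n : ℕ) (q : ℝ) : ℝ := ∑ M ∈ range (3 ^ n), P K n M ^ q

/-- words of length `s` with `m` heads which lead to `M` (so `ns m m s M = (AP m s M).card / 2^s`) -/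
def AP (m s M : ℕ) : Finset (List Bool) :=
  (W s).filter (fun a => hd a = m ∧ te a = true ∧ 3 ^ m ∣ 2 ^ s * M + cc a)

/-- **PA** (simple properties).  Proof: (1) `ns_nonneg`.  (2) `StNs` (1) with `e = n`.
(3) interchange the sums, `StNs` (4) with `e = n`, `StQs` (1).  (4) `P K n M = P K n (M % 3^n)` by (2),
and this is one of the nonnegative terms of the sum (3). -/
def StPA : Prop := (∀ K n M, 0 ≤ P K n M) ∧ (∀ K n M, P K n (M + 3 ^ n) = P K n M) ∧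
  (∀ K n, ∑ M ∈ range (3 ^ n), P K n M ≤ 1) ∧ (∀ K n M, P K n M ≤ 1)

/-- **PB** (splitting after `m` heads of the list).  Proof: LEMMA: if `hd l = m + n`, `te l = true` then
`l = a ++ b` with `hd a = m`, `te a = true`, `hd b = n`, `te b = true`.  Induction on `l` for all
`m`: `m = 0`: `a = []`.  `m > 0`: `l = x :: l'` (`hd [] = 0`), `te l' = true` (`te_cons`, `te_nil`); use the
induction hypothesis for `l'` with `m - 1` if `x = true` and with `m` if `x = false`, `l' = a' ++ b`,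
`a = x :: a'`; `te a = te a'` if `a' ≠ []`, and `a' = []` is only possible for `x = true`, `te [true] =
true`.
If moreover `|l| = s`, `s1 = |a|`, `s2 = |b|` and `3^(m+n) ∣ 2^s M + cc l`: by `cc_append`
`2^s M + cc l = 2^s2 (2^s1 M + cc a) + 3^m cc b`, so `3^m ∣ 2^s1 M + cc a =: 3^m N` (`2^s2` is prime to `3`),
`a ∈ AP m s1 M`, and `3^(m+n) ∣ 3^m (2^s2 N + cc b)`, so `3^n ∣ 2^s2 N + cc b`, i.e. `b ∈ AP n s2 N`.
So `(AP (m+n) s M).card ≤ ∑_{s1 ≤ s} ∑_{a ∈ AP m s1 M} (AP n (s-s1) ((2^s1 M + cc a)/3^m)).card`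
(`AP (m+n) s M` is contained in the union of the images).  Divide by `2^s = 2^s1 2^(s-s1)`, sum over
`s < K`, and enlarge the range of `(s1, s2)`, `s1 + s2 < K`, to `s1 < K`, `s2 < K` (terms `≥ 0`). -/
def StPB : Prop := ∀ K m n M : ℕ, P K (m + n) M ≤
  ∑ s ∈ range K, ∑ a ∈ AP m s M, P K n ((2 ^ s * M + cc a) / 3 ^ m) / 2 ^ s

/-- **PC** (sums over residues).  Proof: (1) `M ↦ (M % 3^m, M / 3^m)` is a bijection from
`range (3^(m+n))` to `range (3^m) × range (3^n)`.  (2) `i ↦ (c + 2^s i) % 3^n` is an injective map from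
`range (3^n)` to itself (`2^s` is prime to `3^n`), so bijective, and `g x = g (x % 3^n)`. -/
def StPC : Prop :=
  (∀ (m n : ℕ) (F : ℕ → ℝ), ∑ M ∈ range (3 ^ (m + n)), F M =
    ∑ u ∈ range (3 ^ m), ∑ i ∈ range (3 ^ n), F (u + 3 ^ m * i)) ∧
  (∀ (n c s : ℕ) (g : ℕ → ℝ), (∀ M, g (M + 3 ^ n) = g M) →
    ∑ i ∈ range (3 ^ n), g (c + 2 ^ s * i) = ∑ i ∈ range (3 ^ n), g i)

/-- **Je** (Jensen).  Proof: if `A = ∑ w = 0` then all `w i = 0`, the left side is `0 ^ q = 0`.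
Otherwise divide by `A`: `Real.rpow_arith_mean_le_arith_mean_rpow` with the weights `w i / A`:
`(∑ (w i/A) z i)^q ≤ ∑ (w i/A) (z i)^q`; multiply by `A^q = A^(q-1) A`. -/
def StJe : Prop := ∀ (ι : Type) (t : Finset ι) (w z : ι → ℝ) (q : ℝ), 1 ≤ q →
  (∀ i ∈ t, 0 ≤ w i) → (∀ i ∈ t, 0 ≤ z i) →
  (∑ i ∈ t, w i * z i) ^ q ≤ (∑ i ∈ t, w i) ^ (q - 1) * ∑ i ∈ t, w i * z i ^ q

/-- **PD** (the `L^q` norms are submultiplicative).  Proof: `StPC` (1):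
`Sq K (m+n) q = ∑_{u < 3^m} ∑_{i < 3^n} P K (m+n) (u + 3^m i)^q`.  Fix `u`.  For all `i`, `s`:
`AP m s (u + 3^m i) = AP m s u`, and for `a ∈ AP m s u`
`(2^s (u + 3^m i) + cc a)/3^m = (2^s u + cc a)/3^m + 2^s i`.  So `StPB` and `StJe` (index set: the pairs
`(s, a)` with `s < K`, `a ∈ AP m s u`, `Finset.sigma`; weights `2^(-s)` with sum
`∑_s ns m m s u = P K m u =: w`) give
`P K (m+n) (u + 3^m i)^q ≤ w^(q-1) ∑_s ∑_a 2^(-s) P K n (c_a + 2^s i)^q`, `c_a = (2^s u + cc a)/3^m`.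
Sum over `i`: by `StPC` (2) (`g M = P K n M ^ q`, period `3^n` by `StPA`) the sum over `i` of the last
factor is `Sq K n q`, so the total is at most `w^(q-1) w Sq K n q = w^q Sq K n q` (`w ≥ 0`, `q ≥ 1`;
for `w = 0` both sides are `0`).  Sum over `u < 3^m`. -/
def StPD : Prop := ∀ (K m n : ℕ) (q : ℝ), 1 ≤ q → Sq K (m + n) q ≤ Sq K m q * Sq K n q

/-- **PE** (nearly flat for `q` close to one).  Proof: `C` from `StCh`.  Choose `m ≥ 1` with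
`2 C m^(-1/200) ≤ δ/9`, and `k ≥ 1` with `6^(1/k) ≤ 1 + δ/3`; `n = m k`, `q = 1 + 1/n`.  Fix `K`.
`R M = ∑_{s<K} ns m n s M / 3^(n-m)` satisfies `0 ≤ R M ≤ r := 3^(-(n-m))`, because `ns m n s M ≤ qs n s`
(fewer conditions, `card_hd_te`) and `∑_{s<K} qs n s ≤ 1` (`StQs` (1)).  By `StCh`
`∑_{M<3^n} |P K n M - R M| ≤ C m^(-1/200)`.  Put `τ = 2 r`.  If `P ≤ τ` then `P^q ≤ τ^(q-1) P`; if `P > τ`
then `P^q ≤ P` (`0 ≤ P ≤ 1`, `StPA`) and `P ≤ 2 (P - r) ≤ 2 |P - R|`.  So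
`Sq K n q ≤ τ^(q-1) ∑ P + 2 ∑ |P - R| ≤ τ^(1/n) + δ/9`, and
`τ^(1/n) = 2^(1/n) 3^(m/n) / 3 ≤ 6^(1/k)/3 ≤ 1/3 + δ/9`.  The sum is at most
`1/3 + 2 δ/9 ≤ (1 + δ)/3 ≤ 3^δ/3` (`3^δ = exp (δ log 3) ≥ 1 + δ log 3`, `log 3 ≥ 1`). -/
def StPE : Prop := ∀ δ : ℝ, 0 < δ → ∃ n : ℕ, 1 ≤ n ∧ ∀ K : ℕ,
  Sq K n (1 + 1 / (n : ℝ)) ≤ (3 : ℝ) ^ (δ - 1)

/-- **PF** (all `j`).  Proof: `n` from `StPE`, `q = 1 + 1/n`.  `j = n a + b`, `b < n`, `a = j / n`.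
Induction on `a` with `StPD`: `Sq K (n a + b) q ≤ (3^(δ-1))^a Sq K b q`, and `Sq K b q ≤ ∑ P ≤ 1`
(`0 ≤ P ≤ 1`).  `a ≥ j/n - 1`, `δ - 1 < 0`, so `(3^(δ-1))^a ≤ 3^((δ-1)(j/n-1)) ≤ 3 * 3^(-(1-δ) j/n)`. -/
def StPF : Prop := ∀ δ : ℝ, 0 < δ → δ < 1 → ∃ n : ℕ, 1 ≤ n ∧ ∀ K j : ℕ,
  Sq K j (1 + 1 / (n : ℝ)) ≤ 3 * (3 : ℝ) ^ (-((1 - δ) * j / n))

/-- **PG** (small sets have small measure).  Proof: `n` from `StPF`, `q = 1 + 1/n`, conjugate exponent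
`n + 1`.  `∑_{M ∈ U} P^q ≤ Sq K j q`: `M ↦ M % 3^j` is injective on `Icc 1 (3^j)`, `P` has period
`3^j` (`StPA`).  Hoelder (`Real.inner_le_Lp_mul_Lq`) :
`∑_U P * 1 ≤ (∑_U P^q)^(1/q) |U|^(1/(n+1)) ≤ (3 * 3^(-(1-δ) j/n))^(n/(n+1)) |U|^(1/(n+1)) ≤
3 (3^(-(1-δ) j))^(1/(n+1)) |U|^(1/(n+1))` (`1/q = n/(n+1)`). -/
def StPG : Prop := ∀ δ : ℝ, 0 < δ → δ < 1 → ∃ n : ℕ, 1 ≤ n ∧ ∀ (K j : ℕ) (U : Finset ℕ),
  U ⊆ Icc 1 (3 ^ j) →
  ∑ M ∈ U, P K j M ≤ 3 * ((U.card : ℝ) / (3 : ℝ) ^ ((1 - δ) * j)) ^ (1 / ((n : ℝ) + 1))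

/-! ## Preimages of small sets -/

/-- **PH** (counting).  Proof: `N ↦ (S^[t] N, wd t N)` is injective by `StRl` (1) (`3^h N = 2^t M + cc`),
so the left side is at most the number of the pairs `(M, l)`, `M ∈ U`, `l ∈ W t`, `hd l = j`,
`3^j ∣ 2^t M + cc l` (`wd_mem`), i.e. `∑_{M ∈ U} 2^t nt j t M`.  By `StTr` (1)
`nt j t M = ∑_{s ≤ t} ns j j s M / 2^(t-s) ≤ P (t+1) j M`. -/
def StPH : Prop := ∀ (t j : ℕ) (U : Finset ℕ),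
  (((Icc 1 (2 ^ t)).filter (fun N => hd (wd t N) = j ∧ S^[t] N ∈ U)).card : ℝ) ≤
    2 ^ t * ∑ M ∈ U, P (t + 1) j M

/-- **PI** (range).  Proof: `StRl` (1): `2^t S^[t] N ≤ 3^h N ≤ 3^h 2^t`; `S_iter_pos`. -/
def StPI : Prop := ∀ t N : ℕ, 1 ≤ N → N ≤ 2 ^ t → S^[t] N ∈ Icc 1 (3 ^ hd (wd t N))

/-- exceptional at scale `2^t` -/
def E (σ : ℝ) (t N : ℕ) : Prop := (N : ℝ) < 2 ^ ((1 - σ) * t) ∨ ¬ Gd (σ * t) (wd t N)

/-- the next scale -/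
def nx (t N : ℕ) : ℕ := Nat.clog 2 (3 ^ hd (wd t N))

/-- exceptional at one of the first `i` stages -/
def X (σ : ℝ) : ℕ → ℕ → ℕ → Prop
  | 0, _, _ => False
  | i + 1, t, N => E σ t N ∨ X σ i (nx t N) (S^[t] N)

open Classical in
/-- **PJ** (exceptional numbers are rare).  Proof: `c = σ^2`.  `t = 0`: the count is at most `1`.
`t ≥ 1`: the number of `N ≥ 1` with `N < 2^((1-σ) t)` is at most `2^((1-σ) t) ≤ 2^((1-c) t)`.  `StBn` with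
`n = 2^t`, `D = σ t`: at most `4 * 2^t * t * exp (-2 σ² t)` numbers with a bad word;
`t exp (-σ² t) ≤ 1/σ²` (as `y ≤ exp y`) and `exp (-σ² t) ≤ 2^(-σ² t)`.  `C = 2 + 4/σ²`. -/
def StPJ : Prop := ∀ σ : ℝ, 0 < σ → σ < 1 → ∃ C c : ℝ, 0 < C ∧ 0 < c ∧ c < 1 ∧ ∀ t : ℕ,
  (((Icc 1 (2 ^ t)).filter (fun N => E σ t N)).card : ℝ) ≤ C * 2 ^ ((1 - c) * t)

open Classical in
/-- **PK** (the preimage of a small set is small).  Proof: `C, c` the constants for `Z`; `n` from `StPG`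
with `δ = c/2`.  Fix `t` and `N ∈ Icc 1 (2^t)` with `¬ E σ t N`, `Z (nx t N) (S^[t] N)`; let
`j = hd (wd t N) ≤ t`; `Gd (σ t)` with the suffix of length `t` gives `|j - t/2| ≤ σ t`, so `j ≥ t/4`.
`S^[t] N ∈ Icc 1 (3^j)` (`StPI`), so `S^[t] N ∈ U j := (Icc 1 (3^j)).filter (Z (Nat.clog 2 (3^j)))`.
So the count is at most the sum over `j ≤ t`, `j ≥ t/4`, of
`#{N ∈ Icc 1 (2^t) : hd (wd t N) = j, S^[t] N ∈ U j} ≤ 2^t ∑_{M ∈ U j} P (t+1) j M` (`StPH`).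
With `t' = Nat.clog 2 (3^j)`: `3^j ≤ 2^t' ≤ 2 * 3^j`, so
`|U j| ≤ C 2^((1-c) t') ≤ 2 C 3^((1-c) j)`, and by `StPG` the sum is at most
`3 (2 C 3^(-c j/2))^(1/(n+1)) ≤ 3 (2C+1) 3^(-c t/(8(n+1))) ≤ 3 (2C+1) 2^(-2 c' t)`, `c' = c/(16(n+1))`.
There are at most `t + 1` values of `j`, and `(t+1) 2^(-c' t)` is bounded
(`2^(c' t) = exp (c' t log 2) ≥ 1 + c' t log 2`). -/
def StPK : Prop := ∀ (σ : ℝ) (Z : ℕ → ℕ → Prop), 0 < σ → σ ≤ 1 / 4 →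
  (∃ C c : ℝ, 0 < C ∧ 0 < c ∧ c < 1 ∧ ∀ t : ℕ,
    (((Icc 1 (2 ^ t)).filter (fun N => Z t N)).card : ℝ) ≤ C * 2 ^ ((1 - c) * t)) →
  ∃ C c : ℝ, 0 < C ∧ 0 < c ∧ c < 1 ∧ ∀ t : ℕ,
    (((Icc 1 (2 ^ t)).filter (fun N => ¬ E σ t N ∧ Z (nx t N) (S^[t] N))).card : ℝ) ≤
      C * 2 ^ ((1 - c) * t)

open Classical in
/-- **PL** (finitely many stages).  Proof: induction on `i`.  `i = 0`: the set is empty, `C = 1`,
`c = 1/2`.  Step: the set for `i + 1` is contained in the union of the sets of `StPJ` and of `StPK` with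
`Z = X σ i`; `C` = sum, `c` = minimum. -/
def StPL : Prop := ∀ σ : ℝ, 0 < σ → σ ≤ 1 / 4 → ∀ i : ℕ, ∃ C c : ℝ, 0 < C ∧ 0 < c ∧ c < 1 ∧
  ∀ t : ℕ, (((Icc 1 (2 ^ t)).filter (fun N => X σ i t N)).card : ℝ) ≤ C * 2 ^ ((1 - c) * t)

/-! ## The law of the trajectory -/

/-- **QC** (words of a composed orbit).  Proof: induction on `k`
(`S^[k+t] N = S^[k] (S^[t] N)`); then `hd_append`. -/
def StQC : Prop := ∀ k t N : ℕ, wd (k + t) N = wd k (S^[t] N) ++ wd t N ∧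
  hd (wd (k + t) N) = hd (wd k (S^[t] N)) + hd (wd t N)

/-- **QA** (one stage).  Proof: `N ≥ 2^((1-σ) t)` and `Gd (σ t) (wd t N)`.  Let `i ≤ t`, `l = wd i N`,
`h = hd l`.  `l = (wd t N).drop (t - i)` (`StRl` (3)), so `Gd (σ t) l` (same suffixes), in particular
`|h - i/2| ≤ σ t`.  `StDr`: `cc l / 3^h ≤ t (2/√3)^t 3^(σ t)`.  As `2/√3 ≤ 2^(21/100)`, `3 ≤ 2^(8/5)`,
`σ ≤ 1/100`, this is at most `t 2^(0.226 t) ≤ 2^(0.99 t)/2 ≤ N/2` for large `t`.  `StRl` (1):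
`S^[i] N = (3^h/2^i) (N - cc l/3^h)`, so `log S^[i] N = log N + h log 3 - i log 2 - θ`, `0 ≤ θ ≤ log 2`, and
`h log 3 - i log 2 = - rho i + (h - i/2) log 3`; hence `|log S^[i] N - (log N - rho i)| ≤
1.1 σ t + 0.7 ≤ 2 σ t` for `t ≥ 1/σ`.  `nx t N ≤ 1 + h log 3/log 2 ≤ 1 + 1.585 (0.51 t) ≤ 0.82 t` for
`t ≥ 100` (`3^200 < 2^317`), and `2^(nx t N) ≥ 3^h`, `h ≥ 0.49 t`, so `nx t N ≥ 1.5 * 0.49 t ≥ t/2`
(`3^2 > 2^3`). -/
def StQA : Prop := ∀ σ : ℝ, 0 < σ → σ ≤ 1 / 100 → ∃ t0 : ℕ, ∀ t N : ℕ, t0 ≤ t → 1 ≤ N → N ≤ 2 ^ t →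
  ¬ E σ t N →
  (∀ i ≤ t, |Real.log (S^[i] N : ℕ) - (Real.log N - rho * i)| ≤ 2 * σ * t ∧
    |(hd (wd i N) : ℝ) - i / 2| ≤ σ * t) ∧
  (nx t N : ℝ) ≤ 82 / 100 * t ∧ (t : ℝ) / 2 ≤ nx t N

/-- **QB** (finitely many stages).  Proof: induction on `m` (for all `t, N`).  `m = 0`: `K = 0`,
`log N ≤ t log 2 ≤ t`.  Step: `T0 = max t0 (2 T0')`.  `¬ E σ t N`, and `¬ X σ m t1 N1` for `t1 = nx t N`,
`N1 = S^[t] N`; `1 ≤ N1 ≤ 3^h ≤ 2^t1` (`StPI`), `T0' ≤ t/2 ≤ t1 ≤ 0.82 t` (`StQA`).  Induction hypothesis: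
`K1`.  `K = t + K1`.  `k ≤ t`: `StQA`.  `k = t + k1`, `k1 ≤ K1`: `S^[k] N = S^[k1] N1`,
`|log S^[k1] N1 - (log N1 - rho k1)| ≤ 12 σ t1 ≤ 9.84 σ t`, `|log N1 - (log N - rho t)| ≤ 2 σ t`;
`StQC`: `|hd (wd k N) - k/2| ≤ 6 σ t1 + σ t ≤ 5.92 σ t`.  `log S^[K] N ≤ 0.82^m t1 ≤ 0.82^(m+1) t`. -/
def StQB : Prop := ∀ (σ : ℝ) (m : ℕ), 0 < σ → σ ≤ 1 / 100 → ∃ T0 : ℕ, ∀ t N : ℕ, T0 ≤ t → 1 ≤ N →
  N ≤ 2 ^ t → ¬ X σ m t N → ∃ K : ℕ,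
  (∀ k ≤ K, |Real.log (S^[k] N : ℕ) - (Real.log N - rho * k)| ≤ 12 * σ * t ∧
    |(hd (wd k N) : ℝ) - k / 2| ≤ 6 * σ * t) ∧
  Real.log (S^[K] N : ℕ) ≤ (82 / 100) ^ m * t

/-- **QT** (the map `T` of the problem and the shortcut map).  Proof: (1) induction on `i`:
`S m = T m` for `m` even, `S m = T (T m)` for `m` odd (`3m - 1` is even), `hd (wd (i+1) N) = hd (wd i N)`
plus one if `S^[i] N` is odd.  (2) the sequence `τ i = i + hd (wd i N)` starts at `0` and increases by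
`1` or `2` (by `2` iff `S^[i] N` is odd); take the largest `i` with `τ i ≤ k`; if `τ i < k` then
`k = τ i + 1`, `S^[i] N` odd, `T^[k] N = T (S^[i] N) = 3 S^[i] N - 1`.  (3) `T m ≤ 3 m`.
(4) monotone by (2)'s remark. -/
def StQT : Prop := (∀ i N : ℕ, T^[i + hd (wd i N)] N = S^[i] N) ∧
  (∀ k N : ℕ, ∃ i : ℕ, (k = i + hd (wd i N) ∧ T^[k] N = S^[i] N) ∨
    (k = i + hd (wd i N) + 1 ∧ S^[i] N % 2 = 1 ∧ T^[k] N = 3 * S^[i] N - 1)) ∧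
  (∀ k j N : ℕ, T^[k + j] N ≤ 3 ^ j * T^[k] N) ∧
  (∀ i i' N : ℕ, i ≤ i' → i + hd (wd i N) ≤ i' + hd (wd i' N)) ∧
  (∀ k N : ℕ, 1 ≤ N → 1 ≤ T^[k] N)

/-- the trajectory of `N` follows the expected line -/
def Law (ε : ℝ) (N : ℕ) : Prop := ∀ k : ℕ, (k : ℝ) * Real.log (4 / 3) ≤ 3 * Real.log N →
  |Real.log (T^[k] N : ℕ) - (Real.log N - k * Real.log (4 / 3) / 3)| ≤ ε * Real.log N

/-- **QD** (deterministic part).  Proof: may assume `ε ≤ 1`.  `κ = 0.82^m`; choose `m ≥ 1` with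
`κ ≤ ε/60`, `σ = ε/800`, `T0` from `StQB`, enlarged so that `0.68 t ≥ 75/ε + 1` for `t ≥ T0`.
`A = log N`, `c0 = log(4/3)/3 = 2 rho/3`, `0.0958 ≤ c0 ≤ 0.096`.  `X σ m t N` false and `m ≥ 1` give
`¬ E σ t N`, `A ≥ (1-σ) t log 2 ≥ 0.68 t`, so `t ≤ 1.5 A`.  `K` from `StQB`, `τ i = i + hd (wd i N)`.
Let `c0 k ≤ A` and `i` from `StQT` (2); `|log T^[k] N - log S^[i] N| ≤ log 3 ≤ 1.1`
(`2m ≤ 3m - 1 ≤ 3m`).
Case `i ≤ K`: `|k - 3i/2| ≤ 6 σ t + 1`, so `|log T^[k] N - (A - c0 k)| ≤ 12 σ t + 0.1 (6 σ t + 1) + 1.1 ≤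
13 σ t + 2`.
Case `i > K`: `k ≥ τ i ≥ τ K` (`StQT` (4)).  As in the first case with `τ K` for `k`
(`T^[τ K] N = S^[K] N`; the inequality `c0 k ≤ A` was not used) `A - c0 τ K ≤ log S^[K] N + 13 σ t + 2 ≤ B`,
`B := κ t + 13 σ t + 2`.  So `0 ≤ A - c0 k ≤ B`, `k - τ K ≤ B/c0`, and by `StQT` (3)
`0 ≤ log T^[k] N ≤ κ t + (B/c0) log 3 ≤ 12.5 B`.
In both cases the error is at most `12.5 B ≤ 18.75 κ A + 12.5 * 19.5 σ A + 25 ≤ ε A`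
(`18.75/60 ≤ 0.313`, `243.75/800 ≤ 0.305`, `25 ≤ ε A/3` since `A ≥ 75/ε`). -/
def StQD : Prop := ∀ ε : ℝ, 0 < ε → ∃ (σ : ℝ) (m T0 : ℕ), 0 < σ ∧ σ ≤ 1 / 100 ∧
  ∀ t N : ℕ, T0 ≤ t → 1 ≤ N → N ≤ 2 ^ t → ¬ X σ m t N → Law ε N

open Classical in
/-- **QF** (dyadic form).  Proof: `σ, m, T0` from `StQD`, `C, c` from `StPL`.  `t ≥ T0`: the set is
contained in the set of `StPL`.  `t < T0`: the count is at most `2^T0`. -/
def StQF : Prop := ∀ ε : ℝ, 0 < ε → ∃ C c : ℝ, 0 < C ∧ 0 < c ∧ c < 1 ∧ ∀ t : ℕ,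
  (((Icc 1 (2 ^ t)).filter (fun N => ¬ Law ε N)).card : ℝ) ≤ C * 2 ^ ((1 - c) * t)

open Classical in
/-- **QG** (final form).  Proof: `ε' = ε/3`; `Law ε' N → Law ε N` (`log N ≥ 0`).  If `Law ε' N` and
`(2ε/3) log N > 1/10`, let `k = ⌊3 log N/log (4/3)⌋`: `0 ≤ log N - k log(4/3)/3 ≤ log(4/3)/3 < 1/10`, so
`log T^[k] N ≤ ε' log N + 1/10 < ε log N`, i.e. `T^[k] N < N^ε`.  So the exceptional `n ≤ x` are among
the `n ≤ N0(ε)` and those with `¬ Law ε' n`; with `t = Nat.log 2 x + 1`: `x ≤ 2^t ≤ 2x`, so `StQF` gives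
at most `N0 + C (2x)^(1-c) ≤ (N0 + 2C) x^(1-c)`. -/
def StQG : Prop := ∀ ε : ℝ, 0 < ε → ∃ C δ : ℝ, 0 < C ∧ 0 < δ ∧ ∀ x : ℕ, 1 ≤ x →
  (((Icc 1 x).filter (fun n => ¬ ((∃ k : ℕ, ((T^[k] n : ℕ) : ℝ) < (n : ℝ) ^ ε) ∧
    ∀ k : ℕ, (k : ℝ) * Real.log (4 / 3) ≤ 3 * Real.log n →
      |Real.log (T^[k] n : ℕ) - (Real.log n - k * Real.log (4 / 3) / 3)| ≤
        ε * Real.log n))).card : ℝ) ≤ C * (x : ℝ) ^ (1 - δ)

end Pool.Agent.Helper13.PS
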