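import Pool.Agent.Helper13.PS.St

/-!
# Project PS, second part (UP): the uniform version

THEOREM.  There are `C, c > 0` such that for all `x ≥ 2` and `0 < ε ≤ 1` all but
`C (log x)^4 x^(1 - c ε^4)` of the `n ≤ x` satisfy
`|log T^k n - (log n - k log(4/3)/3)| ≤ ε log x` for all `k` with `k log(4/3) ≤ 3 log n`; and for
`2 ≤ B ≤ x` at most `C (log x)^4 x exp (-c (log B)^4/(log x)^3)` of the `n ≤ x` have a trajectory all
of whose elements exceed `B`.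

Idea.  Elementary: for fixed EARLY part `b` of the path (the end of the list) the LATE parts `a`
(the beginning of the list) with `cc a < 3^j` and the same number of heads lead to different residues
modulo `3^j` (`StUB`), and `cc a ≥ 3^j` is rare (`StUA`).  So the preimage under `S^[t]` of a set `U` of
relative density `r` has relative density at most `(t+2) √r` (`StUC`).  This is iterated with
deviations `H/t` at the scale `2^t`.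
-/

set_option autoImplicit false

noncomputable section

namespace Pool.Agent.Helper13.PS

open Finset Pool.Agent.Helper76.ND

/-! ## The preimage of a small set -/

/-- **UA** (first moment).  Proof: (1) induction on `s` with `sum_W_succ`, `cc_false`, `cc_true`, `card_W`:
`∑_{W (s+1)} cc = ∑ cc l + ∑ (2^s + 3 cc l) = 4 ∑_{W s} cc + 4^s`.  (2) Markov: the sum over the `a` with
`3^n ≤ cc a` is at least `3^n` times their number. -/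
def StUA : Prop := (∀ s : ℕ, 4 * ∑ a ∈ W s, cc a = s * 4 ^ s) ∧
  (∀ s n : ℕ, 4 * 3 ^ n * ((W s).filter (fun a => 3 ^ n ≤ cc a)).card ≤ s * 4 ^ s)

open Classical in
/-- **UB** (separation).  Proof: write the card as a sum of indicators and use `sum_W_append`:
`l = a ++ b`, `a ∈ W s`, `b ∈ W r`, `cc l = 2^r cc a + 3^(hd a) cc b`, `hd a + hd b = j`.  Fix `b`; then
`hd a = k := j - hd b` is fixed.  The `a` with `3^j ≤ cc a` contribute at most the first term.  For the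
`a` with `cc a < 3^j`, `hd a = k` and some `M = M(a) ∈ U` with `3^j ∣ 2^(s+r) M + 2^r cc a + 3^k cc b` the
map `a ↦ M(a)` (choice) is injective: if `M(a) = M(a')` then `3^j ∣ 2^r (cc a - cc a')`, so
`cc a ≡ cc a'` modulo `3^j`, so `cc a = cc a'` (both `< 3^j`), so `a = a'` by `StCo` (1) (same length, same
`hd`, same `cc`).  So there are at most `U.card` of them.  Sum over the `2^r` words `b` (`card_W`). -/
def StUB : Prop := ∀ (s r j : ℕ) (U : Finset ℕ),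
  ((W (s + r)).filter (fun l => hd l = j ∧ ∃ M ∈ U, 3 ^ j ∣ 2 ^ (s + r) * M + cc l)).card ≤
    2 ^ r * (((W s).filter (fun a => 3 ^ j ≤ cc a)).card + U.card)

/-- **UC** (preimage of a small set).  Proof: `U = ∅`: both sides `0`.  Let `u = U.card`,
`1 ≤ u ≤ 3^j`.  `N ↦ wd t N` is injective on `Icc 1 (2^t)`: if `wd t N = wd t N'` then by `StRl` (1)
`3^h N ≡ cc ≡ 3^h N'` modulo `2^t`, so `N ≡ N'` modulo `2^t`.  For `N` in the set, `l = wd t N ∈ W t`,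
`hd l = j` and `M = S^[t] N ∈ U` satisfies `2^t M + cc l = 3^j N` (`StRl` (1)).  So the left side is at most
the left side of `StUB` for every splitting `t = s + r`.  Let `V = √(u 3^j)`, `1 ≤ V ≤ 3^j ≤ 2^t`; choose `s`
with `2^s ≤ V < 2^(s+1)` (so `s ≤ t`), `r = t - s`.  `StUB`, `StUA` (2): at most
`2^r (s 4^s/(4 * 3^j) + u) = 2^t (s 2^s/(4 * 3^j) + u/2^s) ≤ 2^t (s V/(4 * 3^j) + 2 u/V)
≤ 2^t (t/4 + 2) √(u/3^j)`, since `V/3^j = u/V = √(u/3^j)`. -/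
def StUC : Prop := ∀ (t j : ℕ) (U : Finset ℕ), U ⊆ Icc 1 (3 ^ j) → 3 ^ j ≤ 2 ^ t →
  (((Icc 1 (2 ^ t)).filter (fun N => hd (wd t N) = j ∧ S^[t] N ∈ U)).card : ℝ) ≤
    (t + 2) * 2 ^ t * Real.sqrt ((U.card : ℝ) / 3 ^ j)

/-! ## The exceptional set -/

/-- exceptional at scale `2^t` (allowed deviation `H/t`) -/
def EU (H : ℝ) (t N : ℕ) : Prop :=
  (N : ℝ) < 2 ^ t * Real.exp (-(H / t)) ∨ ¬ Gd (H / t) (wd t N)

/-- exceptional at one of the first `i` stages; the stages stop when `t^2 < 2500 H` -/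
def XU (H : ℝ) : ℕ → ℕ → ℕ → Prop
  | 0, _, _ => False
  | i + 1, t, N => 2500 * H ≤ (t : ℝ) ^ 2 ∧ (EU H t N ∨ XU H i (nx t N) (S^[t] N))

open Classical in
/-- **UD** (exceptional numbers are rare).  Proof: the number of `N ≥ 1` with `N < 2^t exp (-H/t)` is at
most `2^t exp (-H/t) ≤ 2^t exp (-H²/t³)` (`H ≤ t²`, `H ≥ 0`).  `StBn` with `n = 2^t`, `D = H/t`: at most
`4 * 2^t * t * exp (-(2 (H/t)²/t)) ≤ 4 t 2^t exp (-H²/t³)`. -/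
def StUD : Prop := ∀ (H : ℝ) (t : ℕ), 0 ≤ H → 1 ≤ t → H ≤ (t : ℝ) ^ 2 →
  (((Icc 1 (2 ^ t)).filter (fun N => EU H t N)).card : ℝ) ≤
    5 * t * 2 ^ t * Real.exp (-(H ^ 2 / (t : ℝ) ^ 3))

/-- **UE** (scales).  Proof: `t² ≥ 2500 * 2500`, `t ≥ 2500`, `D = H/t ≤ t/2500`, `Gd D (wd t N)` (the second
alternative of `EU` fails) with the suffix of length `t` gives `|h - t/2| ≤ t/2500`, `h = hd (wd t N)`;
so `0.4996 t ≤ h ≤ 0.5004 t`.  `3^200 < 2^317`, so `3^h ≤ 2^(317 h/200)` (real exponents),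
`317 h/200 ≤ 0.79314 t`; `nx t N = Nat.clog 2 (3^h) ≤ 317 h/200 + 1 ≤ 0.79314 t + 0.0004 t ≤ 0.7937 t`
(`1 ≤ t/2500`; if `clog = m ≥ 1` then `2^(m-1) < 3^h`). -/
def StUE : Prop := ∀ (H : ℝ) (t N : ℕ), 2500 ≤ H → 2500 * H ≤ (t : ℝ) ^ 2 → 1 ≤ N → N ≤ 2 ^ t →
  ¬ EU H t N → 1 ≤ hd (wd t N) ∧ (nx t N : ℝ) ≤ 7937 / 10000 * t ∧ 3 ^ hd (wd t N) ≤ 2 ^ t

open Classical in
/-- **UF** (the exceptional set at all stages).  Proof: induction on `i` for all `t`.  `i = 0`: empty.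
Step: if `t² < 2500 H` the set is empty.  Otherwise `t ≥ 2500`, `H ≤ t²`.  The `N` with `EU H t N`: `StUD`.
The others: let `j = hd (wd t N) ≤ t`, `t' = Nat.clog 2 (3^j) = nx t N`; by `StUE` `j ≥ 1`, so `t' ≥ 1`,
`t' ≤ θ t`, `θ = 0.7937`, `3^j ≤ 2^t`, and `S^[t] N ∈ Icc 1 (3^j)` (`StPI`), so `S^[t] N ∈ U j :=
(Icc 1 (3^j)).filter (XU H i t')`.  So their number is at most the sum over the `j ≤ t` with these
properties of the left side of `StUC` for `U j`.  `3^j ≤ 2^t' ≤ 2 * 3^j`; induction hypothesis: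
`|U j| ≤ 600 t'^4 2^t' exp (-H²/t'^3) ≤ 1200 t^4 3^j exp (-2 H²/t³)` (`t'^3 ≤ θ³ t³ ≤ t³/2`), so
`√(|U j|/3^j) ≤ 35 t² exp (-H²/t³)` (`35² ≥ 1200`), and the sum over `j` is at most
`(t+1) (t+2) 2^t * 35 t² exp (-H²/t³) ≤ 210 t^4 2^t exp (-H²/t³)` (`t + 1 ≤ 2 t`, `t + 2 ≤ 3 t`).
Finally `210 t^4 + 5 t ≤ 600 t^4`. -/
def StUF : Prop := ∀ H : ℝ, 2500 ≤ H → ∀ i t : ℕ,
  (((Icc 1 (2 ^ t)).filter (fun N => XU H i t N)).card : ℝ) ≤
    600 * (t : ℝ) ^ 4 * 2 ^ t * Real.exp (-(H ^ 2 / (t : ℝ) ^ 3))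

/-! ## The law -/

/-- **UG** (one stage).  Proof: `D = H/t`, `1 ≤ D ≤ t/2500`, `t ≥ 2500`, `N ≥ 2^t exp (-D)`, `Gd D (wd t N)`.
Let `i ≤ t`, `l = wd i N`, `h = hd l`.  `l = (wd t N).drop (t - i)` (`StRl` (3)), so `Gd D l` (same
suffixes), in particular `|h - i/2| ≤ D`.  `StDr`: `cc l / 3^h ≤ t (2/√3)^t 3^D`.  `2/√3 ≤ 2^(21/100)`
(`3^100 ≥ 2^158`), `3^D ≤ 2^(8D/5)`, `exp D ≤ 2^(3D/2)`, and `t ≤ 2^(t/100)` for `t ≥ 2500`, so
`2 t (2/√3)^t 3^D exp D ≤ 2^(1 + 0.01 t + 0.21 t + 3.1 t/2500) ≤ 2^t`, i.e. `cc l/3^h ≤ N/2`.  `StRl` (1):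
`S^[i] N = (3^h/2^i) (N - cc l/3^h)`, so `log S^[i] N = log N + h log 3 - i log 2 - η`, `0 ≤ η ≤ log 2`, and
`h log 3 - i log 2 = - rho i + (h - i/2) log 3`.  So the error is at most
`D log 3 + log 2 ≤ 1.0987 D + 0.6932 ≤ 9/5 D`. -/
def StUG : Prop := ∀ (H : ℝ) (t N : ℕ), 2500 ≤ H → (t : ℝ) ≤ H → 2500 * H ≤ (t : ℝ) ^ 2 → 1 ≤ N →
  N ≤ 2 ^ t → ¬ EU H t N → ∀ i ≤ t,
  |Real.log (S^[i] N : ℕ) - (Real.log N - rho * i)| ≤ 9 / 5 * (H / t) ∧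
    |(hd (wd i N) : ℝ) - i / 2| ≤ H / t

/-- **UH** (all stages).  Proof: let `g t := 22/125 * √H - 7 * H/t` if
`2500 H ≤ t²` and `g t := 0` otherwise; we show by induction on `m` (all `t, N`) that there is a `K` such
that both errors are `≤ g t` for all `k ≤ K` and `log S^[K] N ≤ 35 √H`.
If `t² < 2500 H` (in particular for `m = 0`): `K = 0`, both errors are `0`, `log N ≤ t log 2 ≤
50 √H * 0.6932 ≤ 35 √H`.
Let `2500 H ≤ t²`, `m = m' + 1`: then `¬ EU H t N` and `¬ XU H m' t' N'` for `t' = nx t N`, `N' = S^[t] N`;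
`1 ≤ N' ≤ 3^h ≤ 2^t'` (`StPI`, `Nat.le_pow_clog`), `t' ≤ 0.7937 t ≤ H` (`StUE`),
`(0.7937^m' t')² ≤ (0.7937^m t)² < 2500 H`.  `D = H/t ≤ √H/50` (`t ≥ 50 √H`), so
`1.8 D ≤ g t` (`8.8/50 = 22/125`).  `K'` from the induction hypothesis, `K = t + K'`.  `k ≤ t`: `StUG`.
`k = t + k'`: `S^[k] N = S^[k'] N'`, `log S^[k'] N' = log N' - rho k' ± g t'`,
`log N' = log N - rho t ± 1.8 D`; `StQC`: `hd (wd (k'+t) N) = hd (wd k' N') + hd (wd t N)`.  So both errors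
are at most `1.8 D + g t'`.  If `t'² < 2500 H` this is `1.8 D ≤ g t`.  Otherwise `t' > 0` and
`H/t' ≥ D/0.7937 ≥ 1.2599 D`, `1.8 D + 22/125 √H - 7 * 1.2599 D ≤ 22/125 √H - 7 D = g t`.
Finally `g t ≤ √H/5`. -/
def StUH : Prop := ∀ H : ℝ, 2500 ≤ H → ∀ m t N : ℕ, (t : ℝ) ≤ H →
  ((7937 / 10000 : ℝ) ^ m * t) ^ 2 < 2500 * H → 1 ≤ N → N ≤ 2 ^ t → ¬ XU H m t N → ∃ K : ℕ,
  (∀ k ≤ K, |Real.log (S^[k] N : ℕ) - (Real.log N - rho * k)| ≤ Real.sqrt H / 5 ∧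
    |(hd (wd k N) : ℝ) - k / 2| ≤ Real.sqrt H / 5) ∧
  Real.log (S^[K] N : ℕ) ≤ 35 * Real.sqrt H

/-- **UI** (the law for `T`).  Proof: `A = log N`, `c0 = log(4/3)/3 = 2 rho/3`, `0.0958 ≤ c0 ≤ 0.096`,
`R = √H ≥ 50`, `K` from `StUH`, `τ i = i + hd (wd i N)`.  Let `c0 k ≤ A` and `i` from `StQT` (2);
`|log T^[k] N - log S^[i] N| ≤ log 3 ≤ 1.1` (`2m ≤ 3m - 1 ≤ 3m` for `m = S^[i] N ≥ 1`).
Case `i ≤ K`: `|k - 3i/2| ≤ R/5 + 1`, so
`|log T^[k] N - (A - c0 k)| ≤ R/5 + 0.1 (R/5 + 1) + 1.1 ≤ 0.22 R + 1.2 ≤ R/4` (this does not use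
`c0 k ≤ A`).
Case `i > K`: `k ≥ τ i ≥ τ K` (`StQT` (4)).  By the first case for `τ K` (`T^[τ K] N = S^[K] N`, `StQT` (1))
`A - c0 τ K ≤ log S^[K] N + R/4 ≤ 36 R`.  So `0 ≤ A - c0 k ≤ 36 R`, `k - τ K ≤ 36 R/c0`, and by `StQT` (3)
`0 ≤ log T^[k] N ≤ 35 R + (36 R/c0) log 3 ≤ 450 R` (`log 3/c0 ≤ 1.0987/0.0958 ≤ 11.47`,
`35 + 36 * 11.47 ≤ 448`). -/
def StUI : Prop := ∀ H : ℝ, 2500 ≤ H → ∀ m t N : ℕ, (t : ℝ) ≤ H →
  ((7937 / 10000 : ℝ) ^ m * t) ^ 2 < 2500 * H → 1 ≤ N → N ≤ 2 ^ t → ¬ XU H m t N →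
  ∀ k : ℕ, (k : ℝ) * Real.log (4 / 3) ≤ 3 * Real.log N →
    |Real.log (T^[k] N : ℕ) - (Real.log N - k * Real.log (4 / 3) / 3)| ≤ 450 * Real.sqrt H

open Classical in
/-- **UJ** (final form).  Proof: `L = log x ≥ log 2`, `t = Nat.log 2 x + 1`, so `x ≤ 2^t ≤ 2x`,
`t ≤ L/log 2 + 1 ≤ 2.9 L`.  `c = 10^(-13)`, `C = 10^7` (any small resp. large enough constants will do).
(1) `H = (ε L/450)²`, so `450 √H = ε L`.  If `H < 2500` or `H < t` then `ε^4 L ≤ 10^6`: in the first case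
`ε L < 22500` and `ε^4 L ≤ ε L`; in the second `ε² L² < 450² * 2.9 L`, so `ε² L ≤ 587250`,
`ε^4 L ≤ ε² L`.  Then `x^(1 - c ε^4) = x exp (-c ε^4 L) ≥ x/2`, and the count is at most `x ≤ C L^4 x/2`
(`L^4 ≥ 0.2`).  Otherwise choose `m` with `(0.7937^m t)² < 2500 H`; by `StUI` the exceptional `n` are
in the set of `StUF` (`i = m`), whose size is at most
`600 t^4 2x exp (-H²/t³) ≤ 1200 * 2.9^4 L^4 x exp (-ε^4 L^4/(450^4 * 24.4 L³)) ≤ C L^4 x^(1 - c ε^4)`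
(`450^4 * 24.4 ≤ 10^13`).
(2) `ε = log B/(2L) ∈ (0, 1/2]`.  If the trajectory of `n` stays above `B` then `n` is exceptional in (1)
for this `ε`: let `k = ⌊3 log n/log(4/3)⌋`; `0 ≤ log n - k log(4/3)/3 ≤ log(4/3)/3 ≤ 1/10`,
`log T^[k] n > log B`, and `log B - 1/10 > ε L = log B/2` (`log B ≥ log 2 > 1/5`).  And
`x^(1 - c ε^4) = x exp (-c (log B)^4/(16 L³))`; take `c/16` as the constant of the theorem. -/
def StUJ : Prop := ∃ C c : ℝ, 0 < C ∧ 0 < c ∧ ∀ x : ℕ, 2 ≤ x →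
  (∀ ε : ℝ, 0 < ε → ε ≤ 1 →
    (((Icc 1 x).filter (fun n : ℕ => ∃ k : ℕ, (k : ℝ) * Real.log (4 / 3) ≤ 3 * Real.log n ∧
      ε * Real.log x <
        |Real.log (T^[k] n : ℕ) - (Real.log n - k * Real.log (4 / 3) / 3)|)).card : ℝ) ≤
      C * Real.log x ^ 4 * (x : ℝ) ^ (1 - c * ε ^ 4)) ∧
  (∀ B : ℕ, 2 ≤ B → B ≤ x →
    (((Icc 1 x).filter (fun n : ℕ => ∀ k : ℕ, B < T^[k] n)).card : ℝ) ≤
      C * Real.log x ^ 4 * x * Real.exp (-(c * Real.log B ^ 4 / Real.log x ^ 3)))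

end Pool.Agent.Helper13.PS
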